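import Pool.Agent.Work.MP_dc37f8_rd.Interface

/-!
# BSQ: a popular rotation gives a large subset of small doubling
-/

set_option autoImplicit false

open Finset

namespace Pool.RD

open Pool.BK Pool.BD Pool.RF

open scoped Pointwise

open Classical in
theorem BSQ.sx_le (A : Finset ℂ) (w : ℂ) :
    SX A w ≤ A.card * ∑ z ∈ A ×ˢ A, rep A A (w * (z.2 - z.1)) := by
  have h1 : SX A w ≤ (((A ×ˢ A) ×ˢ (A ×ˢ A)).filter
      (fun z : (ℂ × ℂ) × (ℂ × ℂ) => z.2.1 + w * (z.1.2 - z.1.1) ∈ A)).card := by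
    unfold SX
    apply card_le_card_of_injOn (fun z => ((z.1.1, z.1.2.1), (z.2.1, z.1.2.2)))
    · rintro ⟨⟨a, b, c⟩, ⟨a', b', c'⟩⟩ hz
      simp only [coe_filter, mem_product, Set.mem_ofPred_eq] at hz ⊢
      obtain ⟨⟨⟨ha, hb, hc⟩, ha', hb', hc'⟩, h1, h2⟩ := hz
      refine ⟨⟨⟨ha, hb⟩, ha', hc⟩, ?_⟩
      have : a' + w * (b - a) = b' := by linear_combination h1
      rw [this]
      exact hb'
    · rintro ⟨⟨a, b, c⟩, ⟨a', b', c'⟩⟩ hz ⟨⟨d, e, f⟩, ⟨d', e', f'⟩⟩ hz2 h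
      simp only [coe_filter, mem_product, Set.mem_ofPred_eq, Prod.mk.injEq] at hz hz2 h ⊢
      obtain ⟨⟨e1, e2⟩, e3, e4⟩ := h
      obtain ⟨_, h1, h2⟩ := hz
      obtain ⟨_, h3, h4⟩ := hz2
      subst e1 e2 e3 e4
      refine ⟨⟨rfl, rfl, rfl⟩, rfl, ?_, ?_⟩
      · linear_combination h3 - h1
      · linear_combination h4 - h2
  refine h1.trans ?_
  rw [card_filter, sum_product, mul_sum]
  refine sum_le_sum fun z _ => ?_
  rw [sum_product]
  unfold rep
  rw [card_filter, mul_sum]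
  refine sum_le_sum fun p _ => ?_
  simp only
  by_cases hp : p + w * (z.2 - z.1) ∈ A
  · simp [hp]
  · simp [hp]

theorem stmt_BSQ (hA : BD.Stmt_ADD) : Stmt_BSQ := by
  classical
  intro δ hδ
  obtain ⟨c₁, K₁, hc₁, hK₁, hadd⟩ := hA δ hδ
  obtain ⟨K, hKd⟩ : ∃ K : ℝ, K = 1 / c₁ + K₁ := ⟨_, rfl⟩
  have hK : 0 < K := by rw [hKd]; positivity
  refine ⟨K, hK, ?_⟩
  intro P A w hAP hw hP hSX
  have hw0 : w ≠ 0 := by
    intro h
    rw [h, norm_zero] at hw
    exact zero_ne_one hw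
  have hn0 : (0 : ℝ) < P.card := by exact_mod_cast hP
  have hAc : A.card ≤ P.card := card_le_card hAP
  have hAc' : (A.card : ℝ) ≤ P.card := by exact_mod_cast hAc
  have hS : δ * (P.card : ℝ) ^ 3 ≤ ∑ z ∈ A ×ˢ A, (rep A A (w * (z.2 - z.1)) : ℝ) := by
    have h2 : (SX A w : ℝ) ≤ A.card * ∑ z ∈ A ×ˢ A, (rep A A (w * (z.2 - z.1)) : ℝ) := by
      exact_mod_cast BSQ.sx_le A w
    have h3 : (0 : ℝ) ≤ ∑ z ∈ A ×ˢ A, (rep A A (w * (z.2 - z.1)) : ℝ) := by positivity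
    have h4 := mul_le_mul_of_nonneg_right hAc' h3
    have h6 : (P.card : ℝ) * (δ * (P.card : ℝ) ^ 3) ≤
        P.card * ∑ z ∈ A ×ˢ A, (rep A A (w * (z.2 - z.1)) : ℝ) := by
      calc (P.card : ℝ) * (δ * (P.card : ℝ) ^ 3) = δ * (P.card : ℝ) ^ 4 := by ring
        _ ≤ _ := by linarith
    exact le_of_mul_le_mul_left h6 hn0
  have hwinj : Function.Injective (fun z : ℂ => w * z) := mul_right_injective₀ hw0
  obtain ⟨A', hA'sub, hA'1, hA'2⟩ := hadd (A.image (fun z => w * z)) A P.card hP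
    (card_image_le.trans hAc) hAc (by
      refine hS.trans (le_of_eq ?_)
      rw [sum_product, sum_product, sum_image (fun x _ y _ h => hwinj h)]
      refine sum_congr rfl fun x _ => ?_
      rw [sum_image (fun x _ y _ h => hwinj h)]
      refine sum_congr rfl fun y _ => ?_
      simp only
      congr 2
      ring)
  obtain ⟨Q, hQd⟩ : ∃ Q : Finset ℂ, Q = A.filter (fun p => w * p ∈ A') := ⟨_, rfl⟩
  have hQA : Q ⊆ A := by rw [hQd]; exact filter_subset _ _
  have hQim : Q.image (fun p => w * p) = A' := by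
    ext y
    constructor
    · intro hy
      obtain ⟨p, hp, rfl⟩ := mem_image.1 hy
      rw [hQd] at hp
      exact (mem_filter.1 hp).2
    · intro hy
      obtain ⟨z, hz, rfl⟩ := mem_image.1 (hA'sub hy)
      refine mem_image.2 ⟨z, ?_, rfl⟩
      rw [hQd]
      exact mem_filter.2 ⟨hz, hy⟩
  have hQc : Q.card = A'.card := by rw [← hQim, card_image_of_injective _ hwinj]
  have hQdf : (Q - Q).card ≤ (A' - A').card := by
    apply card_le_card_of_injOn (fun v => w * v)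
    · intro v hv
      obtain ⟨p, hp, q, hq, rfl⟩ := mem_sub.1 (mem_coe.1 hv)
      have e : w * (p - q) = w * p - w * q := by ring
      show w * (p - q) ∈ _
      rw [e]
      exact mem_coe.2 (sub_mem_sub (hQim ▸ mem_image_of_mem _ hp) (hQim ▸ mem_image_of_mem _ hq))
    · intro v _ v' _ h
      exact hwinj h
  refine ⟨Q, hQA, ?_, ?_⟩
  · rw [hQc, hKd]
    have h7 : (P.card : ℝ) ≤ 1 / c₁ * A'.card := by
      rw [one_div, inv_mul_eq_div, le_div_iff₀ hc₁]
      linarith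
    nlinarith [(Nat.cast_nonneg A'.card : (0 : ℝ) ≤ A'.card)]
  · have h7 : ((Q - Q).card : ℝ) ≤ ((A' - A').card : ℝ) := by exact_mod_cast hQdf
    rw [hQc, hKd]
    have h8 : 0 < 1 / c₁ := by positivity
    nlinarith [(Nat.cast_nonneg A'.card : (0 : ℝ) ≤ A'.card)]

end Pool.RD
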