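import Pool.Agent.Work.MP_dc37f8_rd.Interface

/-! MP_dc37f8_rd, block COL: collinear points of a translate of `Q + Q - Q`. -/

set_option autoImplicit false

open Finset

namespace Pool.RD

open Pool.BK Pool.BD Pool.RF

open scoped Pointwise

open Classical in
theorem stmt_COL : Stmt_COL := by
  intro K β P Q S x l hβ hl hQne hQP hK hq hS
  have hQ0 : (0 : ℝ) < Q.card := by exact_mod_cast hQne.card_pos
  have hK0 : 0 ≤ K := by
    by_contra hcon
    push Not at hcon
    have h1 : K * (Q.card : ℝ) < 0 := mul_neg_of_neg_of_pos hcon hQ0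
    have h2 : (0 : ℝ) ≤ ((Q - Q).card : ℝ) := Nat.cast_nonneg _
    linarith
  -- Pluennecke-Ruzsa
  have hPR : (((2 • Q - 2 • Q : Finset ℂ)).card : ℝ) ≤ K ^ 4 * Q.card := by
    have h1 := Finset.pluennecke_ruzsa_inequality_nsmul_sub_nsmul_sub hQne Q 2 2
    have h2 : (((2 • Q - 2 • Q : Finset ℂ)).card : ℝ) ≤ ((((Q - Q).card : ℝ) / Q.card) ^ (2 + 2)) * Q.card := by
      have h3 := (NNRat.cast_le (K := ℝ)).2 h1
      push_cast at h3
      exact h3
    refine le_trans h2 ?_
    refine mul_le_mul_of_nonneg_right ?_ hQ0.le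
    refine pow_le_pow_left₀ (by positivity) ?_ _
    rw [div_le_iff₀ hQ0]
    exact hK
  -- the difference set
  have hsub : (S - Q).card ≤ (2 • Q - 2 • Q : Finset ℂ).card := by
    rw [← Finset.card_vadd_finset x (2 • Q - 2 • Q)]
    refine Finset.card_le_card ?_
    intro d hd
    rw [Finset.mem_sub] at hd
    obtain ⟨p, hp, q, hq', rfl⟩ := hd
    have h1 := (hS p hp).2
    rw [Finset.mem_sub] at h1
    obtain ⟨u, hu, v, hv, huv⟩ := h1
    rw [Finset.mem_vadd_finset]
    refine ⟨u - (v + q), ?_, ?_⟩
    · rw [Finset.mem_sub]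
      refine ⟨u, by rw [two_nsmul]; exact hu, v + q, by rw [two_nsmul]; exact Finset.add_mem_add hv hq', rfl⟩
    · rw [vadd_eq_add]
      linear_combination huv
  -- double counting
  have hcount : ((S ×ˢ Q).card : ℝ) ≤ (β * P.card) * (S - Q).card := by
    have h1 : (S ×ˢ Q).card = ∑ d ∈ S - Q, ((S ×ˢ Q).filter (fun a => a.1 - a.2 = d)).card := by
      refine Finset.card_eq_sum_card_fiberwise (f := fun a : ℂ × ℂ => a.1 - a.2) (t := S - Q) ?_
      intro a ha
      rw [mem_coe, mem_product] at ha
      exact Finset.sub_mem_sub ha.1 ha.2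
    rw [h1]
    push_cast
    have h2 : ∀ d ∈ S - Q, (((S ×ˢ Q).filter (fun a => a.1 - a.2 = d)).card : ℝ) ≤ β * P.card := by
      intro d hd
      rw [Finset.mem_sub] at hd
      obtain ⟨p, hp, q, hq', rfl⟩ := hd
      refine le_trans ?_ (hq q hq')
      have : ((S ×ˢ Q).filter (fun a => a.1 - a.2 = p - q)).card ≤ (pts P (q, l.2)).card := by
        refine Finset.card_le_card_of_injOn (fun a => a.2) ?_ ?_
        · intro a ha
          rw [mem_coe, mem_filter, mem_product] at ha
          obtain ⟨⟨ha1, ha2⟩, ha3⟩ := ha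
          rw [mem_coe]
          unfold pts
          rw [mem_filter]
          refine ⟨hQP ha2, ?_⟩
          obtain ⟨t1, ht1⟩ := (hS p hp).1
          obtain ⟨t2, ht2⟩ := (hS a.1 ha1).1
          refine ⟨t2 - t1, ?_⟩
          push_cast
          show a.2 = q + ((t2 : ℂ) - t1) * l.2
          linear_combination ht2 - ht1 - ha3
        · intro a ha b hb hab
          rw [mem_coe, mem_filter] at ha hb
          have h3 : a.2 = b.2 := hab
          have h4 : a.1 = b.1 := by
            have := ha.2.trans hb.2.symm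
            rw [h3] at this
            exact sub_left_injective this
          exact Prod.ext h4 h3
      exact_mod_cast this
    refine le_trans (Finset.sum_le_sum h2) ?_
    rw [Finset.sum_const, nsmul_eq_mul, mul_comm]
  rw [Finset.card_product] at hcount
  push_cast at hcount
  have hsubr : ((S - Q).card : ℝ) ≤ K ^ 4 * Q.card := le_trans (by exact_mod_cast hsub) hPR
  have h5 : (S.card : ℝ) * Q.card ≤ (K ^ 4 * β * P.card) * Q.card := by
    refine le_trans hcount ?_
    calc β * (P.card : ℝ) * ((S - Q).card : ℝ) ≤ β * (P.card : ℝ) * (K ^ 4 * Q.card) :=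
          mul_le_mul_of_nonneg_left hsubr (by positivity)
      _ = (K ^ 4 * β * P.card) * Q.card := by ring
  exact le_of_mul_le_mul_right h5 hQ0

end Pool.RD
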