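import Pool.Agent.Work.MP_dc37f8_rd.Interface

/-!
# COV: a translate of `Q + Q - Q` contains many points of `R`
-/

set_option autoImplicit false

open Finset

namespace Pool.RD

open Pool.BK Pool.BD Pool.RF

open scoped Pointwise

namespace COV

/-- the linear part of a direct isometry -/
lemma lin {g : Gp} (hg : IsDir g) : ‖g 1 - g 0‖ = 1 ∧ ∀ z, g z = (g 1 - g 0) * z + g 0 := by
  obtain ⟨w, t, hw, h⟩ := hg
  have h0 : g 0 = t := by rw [h 0]; ring
  have h1 : g 1 = w + t := by rw [h 1]; ring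
  have h2 : g 1 - g 0 = w := by rw [h0, h1]; ring
  rw [h2, h0]
  exact ⟨hw, h⟩

open Classical in
/-- few linear parts -/
lemma lin_card {𝒢 : Finset Gp} {C : ℕ}
    (hN : ∀ 𝒢' : Finset Gp, 𝒢' ⊆ 𝒢 → (∀ g ∈ 𝒢', ∀ h ∈ 𝒢', g 1 - g 0 = h 1 - h 0 → g = h) →
      𝒢'.card ≤ C) : (𝒢.image (fun g : Gp => g 1 - g 0)).card ≤ C := by
  have hex : ∀ w ∈ 𝒢.image (fun g : Gp => g 1 - g 0), ∃ g ∈ 𝒢, g 1 - g 0 = w := by
    intro w hw
    rw [mem_image] at hw
    exact hw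
  choose! rep hrep1 hrep2 using hex
  have hinj : Set.InjOn rep (𝒢.image (fun g : Gp => g 1 - g 0) : Set ℂ) := by
    intro a ha b hb hab
    rw [← hrep2 a (by simpa using ha), ← hrep2 b (by simpa using hb), hab]
  have h1 := hN ((𝒢.image (fun g : Gp => g 1 - g 0)).image rep) (by
      intro g hg
      rw [mem_image] at hg
      obtain ⟨w, hw, rfl⟩ := hg
      exact hrep1 w hw) (by
      intro g hg h hh hgh
      rw [mem_image] at hg hh
      obtain ⟨w, hw, rfl⟩ := hg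
      obtain ⟨w', hw', rfl⟩ := hh
      rw [hrep2 w hw, hrep2 w' hw'] at hgh
      rw [hgh])
  rwa [Finset.card_image_of_injOn hinj] at h1

open Classical in
/-- Ruzsa covering for the rotated set -/
lemma cover {P Q : Finset ℂ} {h : Gp} {K δ : ℝ} (hd : IsDir h) (hδ : 0 < δ) (hK : 0 < K)
    (hPn : 0 < P.card) (hQP : Q ⊆ P) (hQQ : ((Q - Q).card : ℝ) ≤ K * Q.card)
    (hst : δ * P.card ≤ ((st Q h).card : ℝ)) :
    ∃ F : Finset ℂ, (F.card : ℝ) ≤ K / δ ∧ ∀ q ∈ Q, ∃ f ∈ F, ∃ q1 ∈ Q, ∃ q2 ∈ Q,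
      (h 1 - h 0) * q = f + (q1 - q2) := by
  obtain ⟨hw1, hlin⟩ := lin hd
  set w : ℂ := h 1 - h 0 with hw
  have hw0 : w ≠ 0 := by
    intro h0
    rw [h0, norm_zero] at hw1
    exact zero_ne_one hw1
  set S := st Q h with hS
  have hPr : (0 : ℝ) < P.card := by exact_mod_cast hPn
  have hSc : (0 : ℝ) < S.card := lt_of_lt_of_le (mul_pos hδ hPr) hst
  have hSne : S.Nonempty := by
    rw [← Finset.card_pos]
    exact_mod_cast hSc
  set A := Q.image (fun z => w * z) with hA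
  set B := S.image (fun z => -(w * z)) with hB
  have hBc : B.card = S.card := by
    rw [hB]
    refine Finset.card_image_of_injective _ ?_
    intro a b hab
    have h1 : -(w * a) = -(w * b) := hab
    exact mul_left_cancel₀ hw0 (neg_injective h1)
  have hBne : B.Nonempty := hSne.image _
  have hSQ : S ⊆ Q := by
    rw [hS]
    exact Finset.filter_subset _ _
  have hAB : (A + B).card ≤ (Q - Q).card := by
    refine le_trans (Finset.card_le_card (t := (Q - Q).image (fun z => w * z)) ?_) Finset.card_image_le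
    intro z hz
    rw [Finset.mem_add] at hz
    obtain ⟨a, ha, b, hb, rfl⟩ := hz
    rw [hA, mem_image] at ha
    rw [hB, mem_image] at hb
    obtain ⟨q, hq, rfl⟩ := ha
    obtain ⟨s, hs, rfl⟩ := hb
    rw [mem_image]
    exact ⟨q - s, Finset.sub_mem_sub hq (hSQ hs), by ring⟩
  have hQc : (Q.card : ℝ) ≤ P.card := by exact_mod_cast Finset.card_le_card hQP
  have hcov : ((A + B).card : ℝ) ≤ (K / δ) * B.card := by
    have h1 : ((A + B).card : ℝ) ≤ (Q - Q).card := by exact_mod_cast hAB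
    rw [hBc]
    calc ((A + B).card : ℝ) ≤ K * Q.card := le_trans h1 hQQ
      _ ≤ K * P.card := mul_le_mul_of_nonneg_left hQc hK.le
      _ = (K / δ) * (δ * P.card) := by rw [← mul_assoc, div_mul_cancel₀ K hδ.ne']
      _ ≤ (K / δ) * S.card := mul_le_mul_of_nonneg_left hst (div_pos hK hδ).le
  obtain ⟨F, _, hFc, hFcov⟩ := Finset.ruzsa_covering_add hBne hcov
  refine ⟨F, hFc, fun q hq => ?_⟩
  have h1 : w * q ∈ F + (B - B) := hFcov (by rw [hA, mem_image]; exact ⟨q, hq, rfl⟩)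
  rw [Finset.mem_add] at h1
  obtain ⟨f, hf, d, hd', hfd⟩ := h1
  rw [Finset.mem_sub] at hd'
  obtain ⟨b1, hb1, b2, hb2, rfl⟩ := hd'
  rw [hB, mem_image] at hb1 hb2
  obtain ⟨s1, hs1, rfl⟩ := hb1
  obtain ⟨s2, hs2, rfl⟩ := hb2
  have hm1 : h s1 ∈ Q := by
    rw [hS] at hs1
    unfold st at hs1
    exact (mem_filter.1 hs1).2
  have hm2 : h s2 ∈ Q := by
    rw [hS] at hs2
    unfold st at hs2
    exact (mem_filter.1 hs2).2
  refine ⟨f, hf, h s2, hm2, h s1, hm1, ?_⟩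
  rw [hlin s1, hlin s2, ← hfd]
  ring

end COV

open Classical in
theorem stmt_COV (hN : Stmt_NLP) : Stmt_COV := by
  intro K δ c hK hδ hc
  obtain ⟨C, n₁, hNLP⟩ := hN K δ hK hδ
  refine ⟨(c / (C + 1)) * δ * (δ / K), ⌈K * n₁⌉₊ + 1, by positivity, ?_⟩
  intro P Q R 𝒢 hn hQP hRP hPQ hQQ h𝒢 hcard
  have hP1 : 0 < P.card := lt_of_lt_of_le (Nat.succ_pos _) hn
  have hPr : (0 : ℝ) < P.card := by exact_mod_cast hP1
  have hQn : n₁ ≤ Q.card := by
    have h1 : K * n₁ ≤ (P.card : ℝ) := by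
      have h2 : K * n₁ ≤ (⌈K * n₁⌉₊ : ℝ) := Nat.le_ceil _
      have h3 : ((⌈K * n₁⌉₊ + 1 : ℕ) : ℝ) ≤ P.card := by exact_mod_cast hn
      push_cast at h3
      linarith
    have h2 : K * (n₁ : ℝ) ≤ K * Q.card := le_trans h1 hPQ
    have h3 : (n₁ : ℝ) ≤ Q.card := le_of_mul_le_mul_left h2 hK
    exact_mod_cast h3
  have hQc : (Q.card : ℝ) ≤ P.card := by exact_mod_cast Finset.card_le_card hQP
  have h𝒢0 : (0 : ℝ) < 𝒢.card := lt_of_lt_of_le (by positivity) hcard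
  have h𝒢ne : 𝒢.Nonempty := by
    rw [← Finset.card_pos]
    exact_mod_cast h𝒢0
  -- few linear parts
  set Λ := 𝒢.image (fun g : Gp => g 1 - g 0) with hΛ
  have hΛc : Λ.card ≤ C := COV.lin_card (fun 𝒢' h1 h2 =>
    hNLP Q 𝒢' hQn hQQ (fun g hg => ⟨(h𝒢 g (h1 hg)).1,
      le_trans (mul_le_mul_of_nonneg_left hQc hδ.le) (h𝒢 g (h1 hg)).2.1⟩) h2)
  have hΛne : Λ.Nonempty := h𝒢ne.image _
  obtain ⟨w, hwΛ, hw⟩ := Finset.exists_le_card_fiber_of_nsmul_le_card_of_maps_to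
    (s := 𝒢) (t := Λ) (f := fun g : Gp => g 1 - g 0) (b := (c / (C + 1)) * (P.card : ℝ))
    (fun g hg => mem_image_of_mem _ hg) hΛne (by
      rw [nsmul_eq_mul]
      have h1 : (Λ.card : ℝ) ≤ C + 1 := by
        have : (Λ.card : ℝ) ≤ C := by exact_mod_cast hΛc
        linarith
      calc (Λ.card : ℝ) * (c / (C + 1) * P.card) ≤ (C + 1) * (c / (C + 1) * P.card) :=
            mul_le_mul_of_nonneg_right h1 (by positivity)
        _ = c * P.card := by field_simp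
        _ ≤ 𝒢.card := hcard)
  set 𝒲 := 𝒢.filter (fun g : Gp => g 1 - g 0 = w) with h𝒲
  have h𝒲c : (0 : ℝ) < 𝒲.card := lt_of_lt_of_le (by positivity) hw
  have h𝒲ne : 𝒲.Nonempty := by
    rw [← Finset.card_pos]
    exact_mod_cast h𝒲c
  have h𝒲m : ∀ g ∈ 𝒲, g ∈ 𝒢 ∧ g 1 - g 0 = w := fun g hg => mem_filter.1 hg
  -- a point p with many images in R
  have hRne : R.Nonempty := by
    obtain ⟨g, hg⟩ := h𝒢ne
    have h1 : (0 : ℝ) < ((st R g).card : ℝ) := lt_of_lt_of_le (by positivity) (h𝒢 g hg).2.2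
    have h2 : 0 < (st R g).card := by exact_mod_cast h1
    obtain ⟨p, hp⟩ := Finset.card_pos.1 h2
    unfold st at hp
    exact ⟨p, (mem_filter.1 hp).1⟩
  have hRc : (R.card : ℝ) ≤ P.card := by exact_mod_cast Finset.card_le_card hRP
  have hdc : ∑ p ∈ R, ((𝒲.filter (fun g => g p ∈ R)).card : ℝ) = ∑ g ∈ 𝒲, ((st R g).card : ℝ) := by
    have h1 : ∑ p ∈ R, (𝒲.filter (fun g => g p ∈ R)).card = ∑ g ∈ 𝒲, (st R g).card := by
      unfold st
      simp_rw [Finset.card_filter]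
      rw [Finset.sum_comm]
    exact_mod_cast h1
  obtain ⟨p, hp, hpm⟩ : ∃ p ∈ R, (c / (C + 1)) * P.card * δ ≤ ((𝒲.filter (fun g => g p ∈ R)).card : ℝ) := by
    refine Finset.exists_le_of_sum_le hRne ?_
    rw [hdc, Finset.sum_const, nsmul_eq_mul]
    calc (R.card : ℝ) * (c / (C + 1) * P.card * δ) ≤ P.card * (c / (C + 1) * P.card * δ) :=
          mul_le_mul_of_nonneg_right hRc (by positivity)
      _ = (c / (C + 1) * P.card) * (δ * P.card) := by ring
      _ ≤ 𝒲.card * (δ * P.card) := mul_le_mul_of_nonneg_right hw (by positivity)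
      _ = ∑ g ∈ 𝒲, δ * (P.card : ℝ) := by rw [Finset.sum_const, nsmul_eq_mul]
      _ ≤ ∑ g ∈ 𝒲, ((st R g).card : ℝ) := Finset.sum_le_sum fun g hg => (h𝒢 g (h𝒲m g hg).1).2.2
  set H := 𝒲.filter (fun g => g p ∈ R) with hH
  -- the covering
  obtain ⟨h, hh⟩ := h𝒲ne
  obtain ⟨F, hFc, hF⟩ := COV.cover (h𝒢 h (h𝒲m h hh).1).1 hδ hK hP1 hQP hQQ (h𝒢 h (h𝒲m h hh).1).2.1
  rw [(h𝒲m h hh).2] at hF
  set R' := H.image (fun g : Gp => g p) with hR'
  have hR'c : R'.card = H.card := by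
    rw [hR']
    refine Finset.card_image_of_injOn ?_
    intro g hg g' hg' hgg
    rw [mem_coe, hH, mem_filter] at hg hg'
    have e1 := (COV.lin (h𝒢 g (h𝒲m g hg.1).1).1).2
    have e2 := (COV.lin (h𝒢 g' (h𝒲m g' hg'.1).1).1).2
    rw [(h𝒲m g hg.1).2] at e1
    rw [(h𝒲m g' hg'.1).2] at e2
    have e3 : g p = g' p := hgg
    rw [e1 p, e2 p] at e3
    have e4 : g 0 = g' 0 := add_left_cancel e3
    ext z
    rw [e1 z, e2 z, e4]
  have hcov : ∀ y ∈ R', ∃ f ∈ F, y ∈ R.filter (fun y => y - (w * p - f) ∈ Q + Q - Q) := by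
    intro y hy
    rw [hR', mem_image] at hy
    obtain ⟨g, hg, rfl⟩ := hy
    rw [hH, mem_filter] at hg
    have e1 := (COV.lin (h𝒢 g (h𝒲m g hg.1).1).1).2
    rw [(h𝒲m g hg.1).2] at e1
    have h1 : (0 : ℝ) < ((st Q g).card : ℝ) :=
      lt_of_lt_of_le (mul_pos hδ hPr) (h𝒢 g (h𝒲m g hg.1).1).2.1
    have h2 : 0 < (st Q g).card := by exact_mod_cast h1
    obtain ⟨q, hq⟩ := Finset.card_pos.1 h2
    unfold st at hq
    rw [mem_filter] at hq
    obtain ⟨f, hf, q1, hq1, q2, hq2, he⟩ := hF q hq.1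
    refine ⟨f, hf, ?_⟩
    rw [mem_filter]
    refine ⟨hg.2, ?_⟩
    rw [Finset.mem_sub]
    refine ⟨g q + q2, Finset.add_mem_add hq.2 hq2, q1, hq1, ?_⟩
    rw [e1 q, e1 p]
    linear_combination he
  have hsum : (R'.card : ℝ) ≤ ∑ f ∈ F, ((R.filter (fun y => y - (w * p - f) ∈ Q + Q - Q)).card : ℝ) := by
    have h1 : R'.card ≤ ∑ f ∈ F, (R.filter (fun y => y - (w * p - f) ∈ Q + Q - Q)).card := by
      refine le_trans (Finset.card_le_card (t := F.biUnion (fun f =>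
        R.filter (fun y => y - (w * p - f) ∈ Q + Q - Q))) ?_) Finset.card_biUnion_le
      intro y hy
      obtain ⟨f, hf, hy'⟩ := hcov y hy
      rw [mem_biUnion]
      exact ⟨f, hf, hy'⟩
    exact_mod_cast h1
  have hHr : (c / (C + 1)) * P.card * δ ≤ (R'.card : ℝ) := by
    rw [hR'c]
    exact hpm
  have hFne : F.Nonempty := by
    rw [Finset.nonempty_iff_ne_empty]
    intro h0
    rw [h0, Finset.sum_empty] at hsum
    have : (0 : ℝ) < (c / (C + 1)) * P.card * δ := by positivity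
    linarith
  obtain ⟨f, hf, hfm⟩ : ∃ f ∈ F, (c / (C + 1)) * δ * (δ / K) * P.card ≤
      ((R.filter (fun y => y - (w * p - f) ∈ Q + Q - Q)).card : ℝ) := by
    refine Finset.exists_le_of_sum_le hFne ?_
    refine le_trans ?_ (le_trans hHr hsum)
    rw [Finset.sum_const, nsmul_eq_mul]
    calc (F.card : ℝ) * ((c / (C + 1)) * δ * (δ / K) * P.card) ≤
          (K / δ) * ((c / (C + 1)) * δ * (δ / K) * P.card) :=
          mul_le_mul_of_nonneg_right hFc (by positivity)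
      _ = (c / (C + 1)) * P.card * δ := by field_simp
  exact ⟨w * p - f, hfm⟩

end Pool.RD
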