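import Pool.Agent.Work.MP_dc37f8_rf.InterfaceC

/-!
# MP_dc37f8_co: all but few points are in a set of small doubling (helper36)

The statements of the blocks of project rd (Step D). Proofs on paper: BLUEPRINT.md.
-/

set_option autoImplicit false

open Finset

namespace Pool.RD

open Pool.BK Pool.BD Pool.RF

open scoped Pointwise

open Classical in
/-- MOV: many motions are popular for both `Q` and `R` (from WCSD, TAIL, RB) -/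
def Stmt_MOV : Prop :=
  ∀ (K θ : ℝ), 0 < K → 0 < θ → ∃ (δ c : ℝ) (n₀ : ℕ), 0 < δ ∧ 0 < c ∧
    ∀ (P Q R : Finset ℂ), n₀ ≤ P.card → 12 * ((TC P).card : ℝ) ≤ 2 * (P.card : ℝ) ^ 2 →
      Q ⊆ P → R ⊆ P → (P.card : ℝ) ≤ K * Q.card → θ * P.card ≤ (R.card : ℝ) →
      ∃ 𝒢 : Finset Gp, (∀ g ∈ 𝒢, IsDir g ∧ δ * P.card ≤ ((st Q g).card : ℝ) ∧
        δ * P.card ≤ ((st R g).card : ℝ)) ∧ c * P.card ≤ (𝒢.card : ℝ)

open Classical in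
/-- NLP: a set of small doubling has boundedly many popular linear parts (from TAIL, RB) -/
def Stmt_NLP : Prop :=
  ∀ (K δ : ℝ), 0 < K → 0 < δ → ∃ (C n₀ : ℕ), ∀ (Q : Finset ℂ) (𝒢 : Finset Gp), n₀ ≤ Q.card →
    ((Q - Q).card : ℝ) ≤ K * Q.card →
    (∀ g ∈ 𝒢, IsDir g ∧ δ * Q.card ≤ ((st Q g).card : ℝ)) →
    (∀ g ∈ 𝒢, ∀ h ∈ 𝒢, g 1 - g 0 = h 1 - h 0 → g = h) → 𝒢.card ≤ C

open Classical in
/-- COV: a translate of `Q + Q - Q` contains many points of `R` (from NLP) -/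
def Stmt_COV : Prop :=
  ∀ (K δ c : ℝ), 0 < K → 0 < δ → 0 < c → ∃ (c' : ℝ) (n₀ : ℕ), 0 < c' ∧
    ∀ (P Q R : Finset ℂ) (𝒢 : Finset Gp), n₀ ≤ P.card → Q ⊆ P → R ⊆ P →
      (P.card : ℝ) ≤ K * Q.card → ((Q - Q).card : ℝ) ≤ K * Q.card →
      (∀ g ∈ 𝒢, IsDir g ∧ δ * P.card ≤ ((st Q g).card : ℝ) ∧
        δ * P.card ≤ ((st R g).card : ℝ)) → c * P.card ≤ (𝒢.card : ℝ) →
      ∃ x : ℂ, c' * P.card ≤ ((R.filter (fun p => p - x ∈ Q + Q - Q)).card : ℝ)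

open Classical in
/-- GRE: greedy covering -/
def Stmt_GRE : Prop :=
  ∀ (P B : Finset ℂ) (θ c : ℝ), 0 < θ → 0 < c →
    (∀ R ⊆ P, θ * P.card ≤ (R.card : ℝ) →
      ∃ x : ℂ, c * P.card ≤ ((R.filter (fun p => p - x ∈ B)).card : ℝ)) →
    ∃ F : Finset ℂ, c * (F.card : ℝ) ≤ 1 ∧ ∃ P' ⊆ P, (∀ p ∈ P', ∃ x ∈ F, p - x ∈ B) ∧
      (1 - θ) * P.card ≤ (P'.card : ℝ)

open Classical in
/-- COL: collinear points of a translate of `Q + Q - Q` -/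
def Stmt_COL : Prop :=
  ∀ (K β : ℝ) (P Q S : Finset ℂ) (x : ℂ) (l : ℂ × ℂ), 0 < β → l.2 ≠ 0 → Q.Nonempty → Q ⊆ P →
    ((Q - Q).card : ℝ) ≤ K * Q.card →
    (∀ q ∈ Q, ((pts P (q, l.2)).card : ℝ) ≤ β * P.card) →
    (∀ p ∈ S, On l p ∧ p - x ∈ Q + Q - Q) → (S.card : ℝ) ≤ K ^ 4 * β * P.card

open Classical in
/-- STEPD: all but few points are on poor lines and form a set of small doubling
(from MOV, COV, GRE, COL, RL) -/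
def Stmt_STEPD : Prop :=
  ∀ (K θ : ℝ), 0 < K → 0 < θ → ∃ K' : ℝ, 0 < K' ∧ ∀ β : ℝ, 0 < β → ∃ (β₂ : ℝ) (n₀ : ℕ),
    0 < β₂ ∧ ∀ (P Q : Finset ℂ), n₀ ≤ P.card → 12 * ((TC P).card : ℝ) ≤ 2 * (P.card : ℝ) ^ 2 →
      Q ⊆ P \ Lam P β₂ → (P.card : ℝ) ≤ K * Q.card → ((Q - Q).card : ℝ) ≤ K * Q.card →
      ∃ P' ⊆ P \ Lam P β, (1 - θ) * P.card ≤ (P'.card : ℝ) ∧
        ((P' - P').card : ℝ) ≤ K' * P'.card

/-- LAT: sets of small doubling with a popular rotation whose popular rotations have rational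
cosines (project rat, helper92) -/
def Stmt_LAT : Prop :=
  ∀ K : ℝ, 0 < K → ∃ (δ : ℝ) (n₀ : ℕ), 0 < δ ∧ ∀ P : Finset ℂ, n₀ ≤ P.card →
    ((P - P).card : ℝ) ≤ K * P.card →
    (∃ w : ℂ, ‖w‖ = 1 ∧ w ≠ 1 ∧ w ≠ -1 ∧ (P.card : ℝ) ^ 4 ≤ K * SX P w) →
    (∀ w : ℂ, ‖w‖ = 1 → Irrational w.re → (SX P w : ℝ) ≤ δ * (P.card : ℝ) ^ 4) →
    1001 / 1000 * (P.card : ℝ) ^ 2 ≤ 12 * ((TC P).card : ℝ)

open Classical in
/-- SXR: removing few points does not change `SX` much -/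
def Stmt_SXR : Prop :=
  ∀ (P P' : Finset ℂ) (w : ℂ), P' ⊆ P → ‖w‖ = 1 →
    (SX P w : ℝ) ≤ SX P' w + 6 * ((P \ P').card : ℝ) * (P.card : ℝ) ^ 3

open Classical in
/-- BSQ: a popular rotation gives a large subset of small doubling (from Pool.BD.Stmt_ADD; see
the proof of `dbl_final` in MP_dc37f8_rf, FINALB) -/
def Stmt_BSQ : Prop :=
  ∀ δ : ℝ, 0 < δ → ∃ K : ℝ, 0 < K ∧ ∀ (P A : Finset ℂ) (w : ℂ), A ⊆ P → ‖w‖ = 1 →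
    0 < P.card → δ * (P.card : ℝ) ^ 4 ≤ (SX A w : ℝ) →
    ∃ Q ⊆ A, (P.card : ℝ) ≤ K * Q.card ∧ ((Q - Q).card : ℝ) ≤ K * Q.card

open Classical in
/-- FINR: a large circle or many triangles (from MAINC, BSQ, STEPD, SXR, LAT) -/
def Stmt_FINR : Prop :=
  ∃ δ : ℝ, 0 < δ ∧ ∀ β : ℝ, 0 < β → ∃ n₀ : ℕ, ∀ P : Finset ℂ, n₀ ≤ P.card →
    (∀ w : ℂ, ‖w‖ = 1 → Irrational w.re →
      (SX (P \ Lam P β) w : ℝ) ≤ δ * (P.card : ℝ) ^ 4) →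
    12 * ((TC P).card : ℝ) ≤ (1 + 1 / 2000) * (P.card : ℝ) ^ 2 →
    ∃ (c : ℂ) (ρ : ℝ), 0 < ρ ∧
      19 / 20 * (P.card : ℝ) ≤ ((P.filter (fun p => dist p c = ρ)).card : ℝ)

end Pool.RD
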