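import Pool.Agent.Work.MP_dc37f8_rf.FINALQ
import Pool.Agent.Work.MP_dc37f8_rd.Interface

/-! FINALR: transfer to the plane. -/

set_option autoImplicit false

open Finset

namespace Pool.RD

open Pool.BK Pool.BD Pool.RF

open Pool.Agent.ConvTri (Plane toC ofC toC_inj dist_toC toC_ofC toC_add)

open Pool.RF.FINAL Pool.RF.FINALQ

open Pool.Agent.ConvTri in
/-- **Large sets whose popular rotations have rational cosines.** -/
theorem ratcos_final (hF : Stmt_FINR) :
    ∃ δ : ℝ, 0 < δ ∧ ∀ β : ℝ, 0 < β → ∃ n0 : ℕ, ∀ P P' : Finset Plane, P' ⊆ P →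
    n0 ≤ P.card → (1 - δ) * (P.card : ℝ) ≤ P'.card →
    (∀ φ : ℝ, Irrational (Real.cos φ) →
      (rotEnergy (poorPoints β P') φ : ℝ) ≤ δ * (P.card : ℝ) ^ 3) →
    round ((P.card : ℝ) ^ 2 / 12) ≤ ((TC P).card : ℤ) ∧
    (((TC P).card : ℤ) = round ((P.card : ℝ) ^ 2 / 12) →
      ∃ c, Conc.IsRegularPolygon P.card c P) := by
  classical
  obtain ⟨δ₀, hδ₀, hmain⟩ := hF
  obtain ⟨δ, hδd⟩ : ∃ δ : ℝ, δ = min (δ₀ / 2) (1 / 10 ^ 5) := ⟨_, rfl⟩
  have hδ : 0 < δ := by rw [hδd]; positivity
  have hδ1 : δ ≤ δ₀ / 2 := by rw [hδd]; exact min_le_left _ _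
  have hδ2 : δ ≤ 1 / 10 ^ 5 := by rw [hδd]; exact min_le_right _ _
  refine ⟨δ, hδ, ?_⟩
  intro β hβ
  obtain ⟨n₁, h1⟩ := hmain β hβ
  refine ⟨2 * n₁ + 1000, ?_⟩
  intro P P' hsub hn hm hrot
  by_cases hT : 12 * (TC P).card ≤ P.card ^ 2 + 6
  · have hle : P'.card ≤ P.card := card_le_card hsub
    have hcard : (P'.image toC).card = P'.card := card_image_of_injective _ toC_inj
    have hTm : (TC P').card ≤ (TC P).card := card_le_card (TC_mono hsub)
    obtain ⟨n, hnd⟩ : ∃ n : ℝ, n = (P'.card : ℝ) := ⟨_, rfl⟩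
    obtain ⟨N, hNd⟩ : ∃ N : ℝ, N = (P.card : ℝ) := ⟨_, rfl⟩
    obtain ⟨T, hTd⟩ : ∃ T : ℝ, T = ((TC P).card : ℝ) := ⟨_, rfl⟩
    have hT' : 12 * T ≤ N ^ 2 + 6 := by rw [hTd, hNd]; exact_mod_cast hT
    have hN1000 : 1000 ≤ N := by rw [hNd]; exact_mod_cast (by omega : 1000 ≤ P.card)
    have hnN : 99999 / 100000 * N ≤ n := by
      rw [← hnd, ← hNd] at hm
      nlinarith
    have hn0 : 0 ≤ n := by rw [hnd]; positivity
    have hnleN : n ≤ N := by rw [hnd, hNd]; exact_mod_cast hle
    have hN2 : (99999 / 100000 * N) ^ 2 ≤ n ^ 2 := pow_le_pow_left₀ (by linarith) hnN 2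
    have hTm' : ((TC P').card : ℝ) ≤ T := by rw [hTd]; exact_mod_cast hTm
    have hn1 : n₁ ≤ P'.card := by
      have h5 : (P.card : ℝ) ≤ 2 * (P'.card : ℝ) := by rw [← hnd, ← hNd]; linarith
      have h6 : P.card ≤ 2 * P'.card := by exact_mod_cast h5
      omega
    have h145 : 12 * ((BK.TC (P'.image toC)).card : ℝ) ≤
        (1 + 1 / 2000) * ((P'.image toC).card : ℝ) ^ 2 := by
      rw [FIN.TC_eq, hcard, ← hnd]
      nlinarith
    obtain ⟨c, ρ, hρ, hc⟩ := h1 (P'.image toC) (by rw [hcard]; exact hn1) (by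
      intro w hw1 hw2
      have hwe : Complex.exp (Complex.arg w * Complex.I) = w := by
        have := Complex.norm_mul_exp_arg_mul_I w
        rw [hw1] at this
        simpa using this
      have hcos : Irrational (Real.cos (Complex.arg w)) := by
        have : Real.cos (Complex.arg w) = w.re := by
          conv_rhs => rw [← hwe, Complex.exp_ofReal_mul_I_re]
        rw [this]
        exact hw2
      have e1 : (SX ((P'.image toC) \ Lam (P'.image toC) β) w : ℝ) ≤
          (rotCount (poorPoints β P') (Complex.arg w) : ℝ) := by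
        rw [← rotCount_eq, hwe]
        have hm : SX ((P'.image toC) \ Lam (P'.image toC) β) w ≤
            SX ((poorPoints β P').image toC) w := by
          unfold SX
          apply card_le_card
          apply filter_subset_filter
          have hs := poor_sub β P'
          exact product_subset_product (product_subset_product hs (product_subset_product hs hs))
            (product_subset_product hs (product_subset_product hs hs))
        exact_mod_cast hm
      have e2 : (rotCount (poorPoints β P') (Complex.arg w) : ℝ) ≤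
          (poorPoints β P').card * rotEnergy (poorPoints β P') (Complex.arg w) := by
        exact_mod_cast count_le _ _
      have e3 : ((poorPoints β P').card : ℝ) ≤ N := by
        rw [hNd]
        exact_mod_cast (card_le_card (filter_subset _ _)).trans (card_le_card hsub)
      have e4 := hrot _ hcos
      rw [← hNd] at e4
      refine e1.trans (e2.trans ?_)
      rw [hcard, ← hnd]
      have e5 : ((poorPoints β P').card : ℝ) * rotEnergy (poorPoints β P') (Complex.arg w) ≤
          N * (δ * N ^ 3) := mul_le_mul e3 e4 (by positivity) (by linarith)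
      have hN4 : N ^ 4 ≤ 2 * n ^ 4 := by
        have h7 : ((99999 / 100000 * N) ^ 2) ^ 2 ≤ (n ^ 2) ^ 2 :=
          pow_le_pow_left₀ (by positivity) hN2 2
        have h8 : 0 ≤ N ^ 4 := by positivity
        nlinarith
      have h9 : 0 ≤ N ^ 4 := by positivity
      calc _ ≤ N * (δ * N ^ 3) := e5
        _ = δ * N ^ 4 := by ring
        _ ≤ δ * (2 * n ^ 4) := mul_le_mul_of_nonneg_left hN4 hδ.le
        _ ≤ δ₀ * n ^ 4 := by nlinarith [(by positivity : (0 : ℝ) ≤ n ^ 4)]) h145
    have hc2 : (((P'.image toC).filter (fun p => dist p c = ρ)).card : ℝ) ≤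
        ((P.filter (fun p => dist p (ofC c) = ρ)).card : ℝ) := by
      have e1 : ((P'.image toC).filter (fun q => dist q c = ρ)).card =
          (P'.filter (fun p => dist p (ofC c) = ρ)).card := by
        rw [filter_image, card_image_of_injective _ toC_inj]
        congr 1
        ext p
        have e : dist (toC p) c = dist p (ofC c) := by
          rw [← dist_toC, toC_ofC]
        simp only [mem_filter, e]
      rw [e1]
      exact_mod_cast card_le_card (filter_subset_filter _ hsub)
    have h3 : 3 * P.card ≤ 4 * (P.filter (fun p => dist p (ofC c) = ρ)).card := by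
      have h5 : 3 * N ≤ 4 * ((P.filter (fun p => dist p (ofC c) = ρ)).card : ℝ) := by
        rw [hcard, ← hnd] at hc
        nlinarith
      rw [hNd] at h5
      exact_mod_cast h5
    have h17 : 17 ≤ P.card := by omega
    have h4 := circle_final (by omega) h3
    exact ⟨h4.1, fun h => ⟨ofC c, h4.2 (Or.inl h17) h⟩⟩
  · have h1 : P.card ^ 2 ≤ 12 * ((TC P).card - 1) + 5 := by omega
    have h2 := round_le_iff h1
    have h3 : 1 ≤ (TC P).card := by omega
    push_cast [Nat.cast_sub h3] at h2
    exact ⟨by omega, fun h => by omega⟩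

end Pool.RD
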