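import Pool.Agent.Work.MP_dc37f8_rd.Interface

/-! FINR: a large circle or many triangles. -/

set_option autoImplicit false

open Finset

namespace Pool.RD

open Pool.BK Pool.BD Pool.RF

open scoped Pointwise

namespace FINR

open Classical in
theorem lam_anti (P : Finset ℂ) {β β' : ℝ} (h : β' ≤ β) : Lam P β ⊆ Lam P β' := by
  intro p hp
  obtain ⟨hp1, v, hv, h1⟩ := mem_filter.1 hp
  refine mem_filter.2 ⟨hp1, v, hv, le_trans ?_ h1⟩
  exact mul_le_mul_of_nonneg_right h (by positivity)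

open Classical in
theorem sx_mono {Q Q' : Finset ℂ} (h : Q ⊆ Q') (w : ℂ) : SX Q w ≤ SX Q' w := by
  apply card_le_card
  apply filter_subset_filter
  exact product_subset_product (product_subset_product h (product_subset_product h h))
    (product_subset_product h (product_subset_product h h))

open Classical in
theorem tc_mono {P Q : Finset ℂ} (h : P ⊆ Q) : (TC P).card ≤ (TC Q).card := by
  apply card_le_card
  unfold TC
  apply image_subset_image
  apply filter_subset_filter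
  exact product_subset_product h (product_subset_product h h)

end FINR

open FINR

set_option maxHeartbeats 4000000 in
open Classical in
theorem stmt_FINR (hMAIN : Stmt_MAINC) (hBSQ : Stmt_BSQ) (hSTEPD : Stmt_STEPD) (hSXR : Stmt_SXR)
    (hLAT : Stmt_LAT) : Stmt_FINR := by
  obtain ⟨δ₀, hδ₀, hmain⟩ := hMAIN
  obtain ⟨K₁, hK₁, hbsq⟩ := hBSQ δ₀ hδ₀
  obtain ⟨θ, hθd⟩ : ∃ θ : ℝ, θ = min (1 / 10 ^ 4) (δ₀ / 12) := ⟨_, rfl⟩
  have hθ : 0 < θ := by rw [hθd]; positivity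
  have hθ1 : θ ≤ 1 / 10 ^ 4 := by rw [hθd]; exact min_le_left _ _
  have hθ2 : θ ≤ δ₀ / 12 := by rw [hθd]; exact min_le_right _ _
  obtain ⟨K', hK', hstep⟩ := hSTEPD K₁ θ hK₁ hθ
  obtain ⟨δ₁, n₁, hδ₁, hlat⟩ := hLAT (K' + 2 / δ₀) (by positivity)
  refine ⟨min δ₀ (δ₁ / 2), by positivity, ?_⟩
  intro β hβ
  obtain ⟨β₂, n₂, hβ₂, hstep⟩ := hstep β hβ
  obtain ⟨n₃, hmain⟩ := hmain (min β β₂) (by positivity)
  refine ⟨2 * n₁ + n₂ + n₃ + 2, ?_⟩
  intro P hP hirr hTC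
  by_contra hcon
  have hn0 : (0 : ℝ) < P.card := by exact_mod_cast (by omega : 0 < P.card)
  have hn2 : (0 : ℝ) < (P.card : ℝ) ^ 2 := by positivity
  have hn4 : (0 : ℝ) < (P.card : ℝ) ^ 4 := by positivity
  obtain ⟨w, hw1, hw2, hw3, hw4⟩ : ∃ w : ℂ, ‖w‖ = 1 ∧ w ≠ 1 ∧ w ≠ -1 ∧
      δ₀ * (P.card : ℝ) ^ 4 < (SX (P \ Lam P (min β β₂)) w : ℝ) := by
    by_contra hno
    push Not at hno
    exact hcon (hmain P (by omega) (fun w h1 h2 h3 => hno w h1 h2 h3) (by linarith))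
  obtain ⟨Q, hQ1, hQ2, hQ3⟩ := hbsq P (P \ Lam P (min β β₂)) w sdiff_subset hw1 (by omega) hw4.le
  have hQ4 : Q ⊆ P \ Lam P β₂ := hQ1.trans (sdiff_subset_sdiff subset_rfl
    (lam_anti P (min_le_right _ _)))
  obtain ⟨P', hP'1, hP'2, hP'3⟩ := hstep P Q (by omega) (by linarith) hQ4 hQ2 hQ3
  have hP'P : P' ⊆ P := hP'1.trans sdiff_subset
  obtain ⟨N, hN⟩ : ∃ N : ℝ, N = (P.card : ℝ) := ⟨_, rfl⟩
  obtain ⟨N', hN'⟩ : ∃ N' : ℝ, N' = (P'.card : ℝ) := ⟨_, rfl⟩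
  have hNN : N' ≤ N := by rw [hN, hN']; exact_mod_cast card_le_card hP'P
  have hN'0 : 0 ≤ N' := by rw [hN']; positivity
  rw [← hN, ← hN'] at hP'2
  have hNhalf : N ≤ 2 * N' := by nlinarith
  have hsd : ((P \ P').card : ℝ) ≤ θ * N := by
    have h1 : ((P \ P').card : ℝ) = N - N' := by
      rw [card_sdiff_of_subset hP'P, Nat.cast_sub (card_le_card hP'P), hN, hN']
    rw [h1]; linarith
  have hSXP : δ₀ * N ^ 4 ≤ (SX P w : ℝ) := by
    have h1 : (SX (P \ Lam P (min β β₂)) w : ℝ) ≤ SX P w := by exact_mod_cast sx_mono sdiff_subset w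
    rw [hN]; linarith
  have hSXP' : δ₀ / 2 * N ^ 4 ≤ (SX P' w : ℝ) := by
    have h1 := hSXR P P' w hP'P hw1
    rw [← hN] at h1
    have h2 : 6 * ((P \ P').card : ℝ) * N ^ 3 ≤ 6 * (θ * N) * N ^ 3 :=
      mul_le_mul_of_nonneg_right (by linarith) (by rw [hN]; positivity)
    have h3 : 6 * (θ * N) * N ^ 3 = 6 * θ * N ^ 4 := by ring
    have h4 : 6 * θ * N ^ 4 ≤ δ₀ / 2 * N ^ 4 :=
      mul_le_mul_of_nonneg_right (by linarith) (by rw [hN]; positivity)
    linarith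
  have hc1 : n₁ ≤ P'.card := by
    have h1 : (P.card : ℝ) ≤ 2 * (P'.card : ℝ) := by rw [← hN, ← hN']; exact hNhalf
    have h2 : P.card ≤ 2 * P'.card := by exact_mod_cast h1
    omega
  have hl := hlat P' hc1 (by
      refine hP'3.trans (mul_le_mul_of_nonneg_right ?_ (by positivity))
      have : 0 < 2 / δ₀ := by positivity
      linarith) ⟨w, hw1, hw2, hw3, by
      have h1 : N' ^ 4 ≤ N ^ 4 := pow_le_pow_left₀ hN'0 hNN 4
      have h2 : 2 / δ₀ * (δ₀ / 2 * N ^ 4) = N ^ 4 := by field_simp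
      have h3 : 2 / δ₀ * (δ₀ / 2 * N ^ 4) ≤ 2 / δ₀ * (SX P' w : ℝ) :=
        mul_le_mul_of_nonneg_left hSXP' (by positivity)
      have h4 : (0 : ℝ) ≤ K' * (SX P' w : ℝ) := by positivity
      rw [← hN', add_mul]
      linarith⟩ (by
      intro u hu1 hu2
      have h1 := hirr u hu1 hu2
      have h2 : (SX P' u : ℝ) ≤ SX (P \ Lam P β) u := by exact_mod_cast sx_mono hP'1 u
      have h3 : min δ₀ (δ₁ / 2) * (P.card : ℝ) ^ 4 ≤ δ₁ / 2 * (P.card : ℝ) ^ 4 :=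
        mul_le_mul_of_nonneg_right (min_le_right _ _) hn4.le
      rw [← hN] at h3 h1
      rw [← hN']
      have h4 : (1 - θ) * N ≤ N' := hP'2
      have h5 : (9999 / 10000 * N) ^ 4 ≤ N' ^ 4 := by
        apply pow_le_pow_left₀ (by rw [hN]; positivity)
        nlinarith
      have h6 : N ^ 4 ≤ 2 * N' ^ 4 := by nlinarith [h5, hN ▸ hn4.le]
      nlinarith)
  have hmono : ((TC P').card : ℝ) ≤ (TC P).card := by exact_mod_cast tc_mono hP'P
  rw [← hN'] at hl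
  rw [← hN] at hTC hn2
  have h7 : (9999 / 10000 * N) ^ 2 ≤ N' ^ 2 := by
    apply pow_le_pow_left₀ (by rw [hN]; positivity)
    nlinarith
  nlinarith

end Pool.RD
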