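import Pool.Agent.Work.MP_dc37f8_rd.Interface

/-!
# GRE: greedy covering
-/

set_option autoImplicit false

open Finset

namespace Pool.RD

open Pool.BK Pool.BD Pool.RF

open scoped Pointwise

open Classical in
theorem GRE.aux (P B : Finset ℂ) (θ c : ℝ) (hc : 0 < c) (hP : 0 < P.card)
    (h : ∀ R ⊆ P, θ * P.card ≤ (R.card : ℝ) →
      ∃ x : ℂ, c * P.card ≤ ((R.filter (fun p => p - x ∈ B)).card : ℝ)) (hθ : 0 < θ) :
    ∀ R : Finset ℂ, R ⊆ P → ∃ F : Finset ℂ, c * P.card * (F.card : ℝ) ≤ R.card ∧
      ∃ P' ⊆ R, (∀ p ∈ P', ∃ x ∈ F, p - x ∈ B) ∧ ((R \ P').card : ℝ) ≤ θ * P.card := by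
  intro R
  induction R using Finset.strongInduction with
  | H R ih =>
    intro hRP
    have hP' : (0 : ℝ) < P.card := by exact_mod_cast hP
    rcases lt_or_ge (R.card : ℝ) (θ * P.card) with hlt | hge
    · refine ⟨∅, by simp, ∅, empty_subset _, by simp, ?_⟩
      rw [sdiff_empty]
      exact hlt.le
    · obtain ⟨x, hx⟩ := h R hRP hge
      set S := R.filter (fun p => p - x ∈ B) with hS
      have hSR : S ⊆ R := filter_subset _ _
      have hSpos : 0 < S.card := by
        have h1 : (0 : ℝ) < S.card := lt_of_lt_of_le (by positivity) hx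
        exact_mod_cast h1
      have hss : R \ S ⊂ R := by
        refine (sdiff_ssubset hSR (card_pos.1 hSpos))
      obtain ⟨F, hF, P', hP'R, hcov, hrest⟩ := ih (R \ S) hss (sdiff_subset.trans hRP)
      refine ⟨insert x F, ?_, P' ∪ S, union_subset (hP'R.trans sdiff_subset) hSR, ?_, ?_⟩
      · have h1 : ((insert x F).card : ℝ) ≤ F.card + 1 := by exact_mod_cast card_insert_le x F
        have h2 : ((R \ S).card : ℝ) = R.card - S.card := by
          rw [card_sdiff_of_subset hSR, Nat.cast_sub (card_le_card hSR)]
        calc c * P.card * ((insert x F).card : ℝ) ≤ c * P.card * (F.card + 1) := by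
              gcongr
          _ = c * P.card * F.card + c * P.card := by ring
          _ ≤ (R.card - S.card) + S.card := by
              rw [← h2]
              exact add_le_add hF hx
          _ = R.card := by ring
      · intro p hp
        rcases mem_union.1 hp with hp | hp
        · obtain ⟨y, hy, hyB⟩ := hcov p hp
          exact ⟨y, mem_insert_of_mem hy, hyB⟩
        · exact ⟨x, mem_insert_self _ _, (mem_filter.1 hp).2⟩
      · refine le_trans ?_ hrest
        have : R \ (P' ∪ S) ⊆ (R \ S) \ P' := by
          intro p hp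
          rw [mem_sdiff, mem_union] at hp
          rw [mem_sdiff, mem_sdiff]
          tauto
        exact_mod_cast card_le_card this

theorem stmt_GRE : Stmt_GRE := by
  classical
  intro P B θ c hθ hc h
  rcases Nat.eq_zero_or_pos P.card with h0 | h0
  · refine ⟨∅, by simp, ∅, empty_subset _, by simp, ?_⟩
    rw [h0]
    simp
  · have hP' : (0 : ℝ) < P.card := by exact_mod_cast h0
    obtain ⟨F, hF, P', hP'R, hcov, hrest⟩ := GRE.aux P B θ c hc h0 (fun R hR hRc => by
      obtain ⟨x, hx⟩ := h R hR hRc
      refine ⟨x, hx.trans (le_of_eq ?_)⟩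
      congr 2) hθ P subset_rfl
    refine ⟨F, ?_, P', hP'R, hcov, ?_⟩
    · have h1 : (c * F.card) * P.card ≤ 1 * P.card := by
        calc (c * F.card) * P.card = c * P.card * F.card := by ring
          _ ≤ 1 * P.card := by rw [one_mul]; exact hF
      exact le_of_mul_le_mul_right h1 hP'
    · have h2 : ((P \ P').card : ℝ) = P.card - P'.card := by
        rw [card_sdiff_of_subset hP'R, Nat.cast_sub (card_le_card hP'R)]
      rw [h2] at hrest
      linarith

end Pool.RD
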