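import Pool.Agent.Work.MP_dc37f8_rd.Interface

/-!
# MOV: many motions are popular for two sets
-/

set_option autoImplicit false

open Finset

namespace Pool.RD

open Pool.BK Pool.BD Pool.RF

namespace MOV

/-- a subset has a smaller stabiliser -/
lemma st_sub {P Q : Finset ℂ} (h : Q ⊆ P) (g : Gp) : st Q g ⊆ st P g := by
  intro z hz
  unfold st at hz ⊢
  rw [Finset.mem_filter] at hz ⊢
  exact ⟨h hz.1, h hz.2⟩

lemma st_card_le (P : Finset ℂ) (g : Gp) : (st P g).card ≤ P.card := by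
  unfold st
  exact Finset.card_filter_le _ _

open Classical in
/-- the triples -/
noncomputable def X (P Q R : Finset ℂ) : Finset (ℂ × ℂ × ℂ) :=
  (E3.T3 P).filter (fun z => z.1 ∈ R ∧ z.2.1 ∈ Q ∧ z.2.2 ∈ Q)

/-- most triples have distinct entries -/
lemma card_X {P Q R : Finset ℂ} (hQ : Q ⊆ P) (hR : R ⊆ P) :
    (R.card : ℝ) * (Q.card : ℝ) ^ 2 ≤ ((X P Q R).card : ℝ) + 3 * (P.card : ℝ) ^ 2 := by
  classical
  have h1 : R ×ˢ Q ×ˢ Q ⊆ X P Q R ∪ ((P ×ˢ P).image (fun z => (z.1, z.1, z.2)) ∪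
      ((P ×ˢ P).image (fun z => (z.1, z.2, z.2)) ∪ (P ×ˢ P).image (fun z => (z.1, z.2, z.1)))) := by
    rintro ⟨a, b, c⟩ hz
    rw [Finset.mem_product, Finset.mem_product] at hz
    obtain ⟨ha, hb, hc⟩ := hz
    simp only at ha hb hc
    by_cases h1 : a = b
    · refine Finset.mem_union_right _ (Finset.mem_union_left _ ?_)
      exact Finset.mem_image.2 ⟨(a, c), Finset.mem_product.2 ⟨hR ha, hQ hc⟩, by simp [h1]⟩
    by_cases h2 : b = c
    · refine Finset.mem_union_right _ (Finset.mem_union_right _ (Finset.mem_union_left _ ?_))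
      exact Finset.mem_image.2 ⟨(a, b), Finset.mem_product.2 ⟨hR ha, hQ hb⟩, by simp [h2]⟩
    by_cases h3 : a = c
    · refine Finset.mem_union_right _ (Finset.mem_union_right _ (Finset.mem_union_right _ ?_))
      exact Finset.mem_image.2 ⟨(a, b), Finset.mem_product.2 ⟨hR ha, hQ hb⟩, by simp [h3]⟩
    refine Finset.mem_union_left _ ?_
    unfold X E3.T3
    rw [Finset.mem_filter, Finset.mem_filter, Finset.mem_product, Finset.mem_product]
    exact ⟨⟨⟨hR ha, hQ hb, hQ hc⟩, h1, h2, h3⟩, ha, hb, hc⟩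
  have h2 := Finset.card_le_card h1
  have h3 := Finset.card_union_le (X P Q R) ((P ×ˢ P).image (fun z => (z.1, z.1, z.2)) ∪
      ((P ×ˢ P).image (fun z => (z.1, z.2, z.2)) ∪ (P ×ˢ P).image (fun z => (z.1, z.2, z.1))))
  have h4 := Finset.card_union_le ((P ×ˢ P).image (fun z => (z.1, z.1, z.2)))
    ((P ×ˢ P).image (fun z => (z.1, z.2, z.2)) ∪ (P ×ˢ P).image (fun z => (z.1, z.2, z.1)))
  have h5 := Finset.card_union_le ((P ×ˢ P).image (fun z => (z.1, z.2, z.2)))
    ((P ×ˢ P).image (fun z => (z.1, z.2, z.1)))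
  have h6 := Finset.card_image_le (s := P ×ˢ P) (f := fun z => (z.1, z.1, z.2))
  have h7 := Finset.card_image_le (s := P ×ˢ P) (f := fun z => (z.1, z.2, z.2))
  have h8 := Finset.card_image_le (s := P ×ˢ P) (f := fun z => (z.1, z.2, z.1))
  rw [Finset.card_product] at h2 h6 h7 h8
  rw [Finset.card_product] at h2
  have h9 : R.card * (Q.card * Q.card) ≤ (X P Q R).card + 3 * (P.card * P.card) := by
    omega
  have h10 : ((R.card * (Q.card * Q.card) : ℕ) : ℝ) ≤
      (((X P Q R).card + 3 * (P.card * P.card) : ℕ) : ℝ) := by exact_mod_cast h9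
  push_cast at h10
  nlinarith [h10]

open Classical in
/-- the triples which stay in `X` -/
lemma card_fix (P Q R : Finset ℂ) (g : Gp) :
    ((((X P Q R).filter (fun x => act g x ∈ X P Q R)).card : ℕ) : ℝ) ≤
      ((st R g).card : ℝ) * ((st Q g).card : ℝ) ^ 2 := by
  have h1 : (X P Q R).filter (fun x => act g x ∈ X P Q R) ⊆ st R g ×ˢ st Q g ×ˢ st Q g := by
    rintro ⟨a, b, c⟩ hz
    rw [Finset.mem_filter] at hz
    obtain ⟨h1, h2⟩ := hz
    unfold X at h1 h2
    rw [Finset.mem_filter] at h1 h2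
    obtain ⟨-, a1, b1, c1⟩ := h1
    obtain ⟨-, a2, b2, c2⟩ := h2
    rw [Finset.mem_product, Finset.mem_product]
    unfold st
    rw [Finset.mem_filter, Finset.mem_filter, Finset.mem_filter]
    exact ⟨⟨a1, a2⟩, ⟨b1, b2⟩, ⟨c1, c2⟩⟩
  have h2 := Finset.card_le_card h1
  rw [Finset.card_product, Finset.card_product] at h2
  have h3 : ((((X P Q R).filter (fun x => act g x ∈ X P Q R)).card : ℕ) : ℝ) ≤
      (((st R g).card * ((st Q g).card * (st Q g).card) : ℕ) : ℝ) := by exact_mod_cast h2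
  refine h3.trans ?_
  push_cast
  nlinarith

end MOV

open MOV in
theorem stmt_MOV (hW : RF.Stmt_WCSD) (hT : RF.Stmt_TAIL) (hR : RF.Stmt_RB) : Stmt_MOV := by
  classical
  intro K θ hK hθ
  set c0 : ℝ := θ ^ 2 / (8 * K ^ 4) with hc0
  have hc0p : 0 < c0 := by positivity
  obtain ⟨δ1, n1, hδ1, hT1⟩ := hT (c0 / 4) (by positivity)
  obtain ⟨C, n2, hC, hR1⟩ := hR δ1 hδ1
  obtain ⟨n3, hn3⟩ := exists_nat_ge (6 * K ^ 2 / θ)
  refine ⟨c0 / (4 * C), c0 / 2, max (max n1 n2) (max n3 1), by positivity, by positivity, ?_⟩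
  intro P Q R hn hTC hQP hRP hQ hRc
  set δ : ℝ := c0 / (4 * C) with hδ
  have hδp : 0 < δ := by positivity
  set n : ℝ := (P.card : ℝ) with hndef
  have hn1 : n1 ≤ P.card := le_trans (le_trans (le_max_left _ _) (le_max_left _ _)) hn
  have hn2 : n2 ≤ P.card := le_trans (le_trans (le_max_right _ _) (le_max_left _ _)) hn
  have hn3' : n3 ≤ P.card := le_trans (le_trans (le_max_left _ _) (le_max_right _ _)) hn
  have hn4 : 1 ≤ P.card := le_trans (le_trans (le_max_right _ _) (le_max_right _ _)) hn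
  have hnpos : (1 : ℝ) ≤ n := by
    rw [hndef]
    exact_mod_cast hn4
  have hn0 : (0 : ℝ) < n := by linarith
  have hbig : 6 * K ^ 2 / θ ≤ n := hn3.trans (by rw [hndef]; exact_mod_cast hn3')
  obtain ⟨G0, hG0, hCS⟩ := hW P
  have hr : ∀ g : Gp, ((st R g).card : ℝ) ≤ n := fun g => by
    rw [hndef]
    exact_mod_cast (st_card_le R g).trans (Finset.card_le_card hRP)
  have hq : ∀ g : Gp, ((st Q g).card : ℝ) ≤ n := fun g => by
    rw [hndef]
    exact_mod_cast (st_card_le Q g).trans (Finset.card_le_card hQP)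
  -- the number of triples
  have hX : θ * n ^ 3 / (2 * K ^ 2) ≤ ((X P Q R).card : ℝ) := by
    have h1 := card_X hQP hRP
    have h2 : n / K ≤ (Q.card : ℝ) := by
      rw [div_le_iff₀ hK]
      linarith
    have h3 : (θ * n) * (n / K) ^ 2 ≤ (R.card : ℝ) * (Q.card : ℝ) ^ 2 :=
      mul_le_mul hRc (pow_le_pow_left₀ (by positivity) h2 2) (by positivity) (by positivity)
    have h4 : 3 * n ^ 2 ≤ θ * n ^ 3 / (2 * K ^ 2) := by
      rw [le_div_iff₀ (by positivity)]
      have h5 : 6 * K ^ 2 ≤ θ * n := by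
        rw [div_le_iff₀ hθ] at hbig
        linarith
      have h6 : 6 * K ^ 2 * n ^ 2 ≤ θ * n * n ^ 2 :=
        mul_le_mul_of_nonneg_right h5 (by positivity)
      nlinarith
    have h5 : (θ * n) * (n / K) ^ 2 = 2 * (θ * n ^ 3 / (2 * K ^ 2)) := by
      field_simp
    linarith
  -- Cauchy-Schwarz
  have hsum : c0 * n ^ 4 ≤ ∑ g ∈ G0, ((st R g).card : ℝ) * ((st Q g).card : ℝ) ^ 2 := by
    have h1 := hCS (X P Q R) (Finset.filter_subset _ _) (fun _ => 1) (fun _ => zero_le_one)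
    simp only [mul_one, Finset.sum_const, nsmul_eq_mul] at h1
    have h2 : ∑ g ∈ G0, ((((X P Q R).filter (fun x => act g x ∈ X P Q R)).card : ℕ) : ℝ) ≤
        ∑ g ∈ G0, ((st R g).card : ℝ) * ((st Q g).card : ℝ) ^ 2 :=
      Finset.sum_le_sum (fun g _ => card_fix P Q R g)
    set S : ℝ := ∑ g ∈ G0, ((st R g).card : ℝ) * ((st Q g).card : ℝ) ^ 2 with hS
    have hS0 : 0 ≤ S := Finset.sum_nonneg (fun g _ => by positivity)
    have h3 : ((X P Q R).card : ℝ) ^ 2 ≤ 2 * n ^ 2 * S := by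
      refine h1.trans ?_
      calc 12 * ((TC P).card : ℝ) *
            ∑ g ∈ G0, ((((X P Q R).filter (fun x => act g x ∈ X P Q R)).card : ℕ) : ℝ)
          ≤ 12 * ((TC P).card : ℝ) * S := mul_le_mul_of_nonneg_left h2 (by positivity)
        _ ≤ 2 * n ^ 2 * S := mul_le_mul_of_nonneg_right hTC hS0
    have h4 : (θ * n ^ 3 / (2 * K ^ 2)) ^ 2 ≤ ((X P Q R).card : ℝ) ^ 2 :=
      pow_le_pow_left₀ (by positivity) hX 2
    have h5 : (θ * n ^ 3 / (2 * K ^ 2)) ^ 2 = 2 * n ^ 2 * (c0 * n ^ 4) := by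
      rw [hc0]
      field_simp
      ring
    have h6 : 2 * n ^ 2 * (c0 * n ^ 4) ≤ 2 * n ^ 2 * S := by
      rw [← h5]
      exact h4.trans h3
    exact le_of_mul_le_mul_left h6 (by positivity)
  -- the tail
  have htail := hT1 P (G0.filter (fun g => ((st P g).card : ℝ) ≤ δ1 * P.card)) hn1
    (fun g hg => ⟨(hG0 g (Finset.mem_filter.1 hg).1).1, (hG0 g (Finset.mem_filter.1 hg).1).2,
      (Finset.mem_filter.1 hg).2⟩)
  have hrb := hR1 P (G0.filter (fun g => δ1 * P.card ≤ ((st P g).card : ℝ))) hn2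
    (fun g hg => ⟨(hG0 g (Finset.mem_filter.1 hg).1).1, (Finset.mem_filter.1 hg).2⟩)
  refine ⟨G0.filter (fun g => δ * n ≤ ((st Q g).card : ℝ) ∧ δ * n ≤ ((st R g).card : ℝ)),
    fun g hg => ⟨(hG0 g (Finset.mem_filter.1 hg).1).1, (Finset.mem_filter.1 hg).2.1,
      (Finset.mem_filter.1 hg).2.2⟩, ?_⟩
  set 𝒢 := G0.filter (fun g => δ * n ≤ ((st Q g).card : ℝ) ∧ δ * n ≤ ((st R g).card : ℝ)) with h𝒢
  have hpt : ∀ g ∈ G0, ((st R g).card : ℝ) * ((st Q g).card : ℝ) ^ 2 ≤
      (if δ * n ≤ ((st Q g).card : ℝ) ∧ δ * n ≤ ((st R g).card : ℝ) then n ^ 3 else 0) +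
      ((if ((st P g).card : ℝ) ≤ δ1 * P.card then ((st P g).card : ℝ) ^ 3 else 0) +
      (if δ1 * P.card ≤ ((st P g).card : ℝ) then δ * n ^ 3 else 0)) := by
    intro g _
    have hr0 : (0 : ℝ) ≤ ((st R g).card : ℝ) := by positivity
    have hq0 : (0 : ℝ) ≤ ((st Q g).card : ℝ) := by positivity
    have e1 : 0 ≤ (if δ * n ≤ ((st Q g).card : ℝ) ∧ δ * n ≤ ((st R g).card : ℝ) then n ^ 3
      else 0) := by split_ifs <;> positivity
    have e2 : 0 ≤ (if ((st P g).card : ℝ) ≤ δ1 * P.card then ((st P g).card : ℝ) ^ 3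
      else 0) := by split_ifs <;> positivity
    have e3 : 0 ≤ (if δ1 * P.card ≤ ((st P g).card : ℝ) then δ * n ^ 3
      else 0) := by split_ifs <;> positivity
    by_cases h1 : δ * n ≤ ((st Q g).card : ℝ) ∧ δ * n ≤ ((st R g).card : ℝ)
    · rw [if_pos h1] at e1 ⊢
      have h2 : ((st R g).card : ℝ) * ((st Q g).card : ℝ) ^ 2 ≤ n * n ^ 2 :=
        mul_le_mul (hr g) (pow_le_pow_left₀ hq0 (hq g) 2) (by positivity) hn0.le
      nlinarith
    · rw [if_neg h1] at e1 ⊢
      by_cases h2 : ((st P g).card : ℝ) ≤ δ1 * P.card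
      · rw [if_pos h2] at e2 ⊢
        have hrp : ((st R g).card : ℝ) ≤ ((st P g).card : ℝ) := by
          exact_mod_cast Finset.card_le_card (st_sub hRP g)
        have hqp : ((st Q g).card : ℝ) ≤ ((st P g).card : ℝ) := by
          exact_mod_cast Finset.card_le_card (st_sub hQP g)
        have h3 : ((st R g).card : ℝ) * ((st Q g).card : ℝ) ^ 2 ≤
            ((st P g).card : ℝ) * ((st P g).card : ℝ) ^ 2 :=
          mul_le_mul hrp (pow_le_pow_left₀ hq0 hqp 2) (by positivity) (by positivity)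
        nlinarith
      · rw [if_neg h2] at e2 ⊢
        rw [if_pos (le_of_lt (not_le.1 h2))]
        have h3 : ((st R g).card : ℝ) * ((st Q g).card : ℝ) ^ 2 ≤ δ * n ^ 3 := by
          rcases not_and_or.1 h1 with h4 | h4
          · have h5 : ((st Q g).card : ℝ) ≤ δ * n := (not_le.1 h4).le
            calc ((st R g).card : ℝ) * ((st Q g).card : ℝ) ^ 2
                = ((st R g).card : ℝ) * (((st Q g).card : ℝ) * ((st Q g).card : ℝ)) := by ring
              _ ≤ n * ((δ * n) * n) :=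
                  mul_le_mul (hr g) (mul_le_mul h5 (hq g) hq0 (by positivity)) (by positivity)
                    hn0.le
              _ = δ * n ^ 3 := by ring
          · have h5 : ((st R g).card : ℝ) ≤ δ * n := (not_le.1 h4).le
            calc ((st R g).card : ℝ) * ((st Q g).card : ℝ) ^ 2
                = ((st R g).card : ℝ) * (((st Q g).card : ℝ) * ((st Q g).card : ℝ)) := by ring
              _ ≤ (δ * n) * (n * n) :=
                  mul_le_mul h5 (mul_le_mul (hq g) (hq g) hq0 hn0.le) (by positivity)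
                    (by positivity)
              _ = δ * n ^ 3 := by ring
        linarith
  have hall := Finset.sum_le_sum hpt
  rw [Finset.sum_add_distrib, Finset.sum_add_distrib, ← Finset.sum_filter, ← Finset.sum_filter,
    ← Finset.sum_filter, Finset.sum_const, Finset.sum_const, nsmul_eq_mul, nsmul_eq_mul] at hall
  have h1 : ((G0.filter (fun g => δ1 * P.card ≤ ((st P g).card : ℝ))).card : ℝ) * (δ * n ^ 3) ≤
      c0 / 4 * n ^ 4 := by
    calc ((G0.filter (fun g => δ1 * P.card ≤ ((st P g).card : ℝ))).card : ℝ) * (δ * n ^ 3)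
        ≤ (C * n) * (δ * n ^ 3) := mul_le_mul_of_nonneg_right hrb (by positivity)
      _ = c0 / 4 * n ^ 4 := by
          rw [hδ]
          field_simp
  have h2 : c0 / 2 * n ^ 4 ≤ (𝒢.card : ℝ) * n ^ 3 := by
    have h3 : c0 * n ^ 4 ≤ (𝒢.card : ℝ) * n ^ 3 + (c0 / 4 * n ^ 4 + c0 / 4 * n ^ 4) := by
      refine hsum.trans (hall.trans ?_)
      exact add_le_add le_rfl (add_le_add htail h1)
    nlinarith
  have h3 : c0 / 2 * n * n ^ 3 ≤ (𝒢.card : ℝ) * n ^ 3 := by
    calc c0 / 2 * n * n ^ 3 = c0 / 2 * n ^ 4 := by ring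
      _ ≤ _ := h2
  exact le_of_mul_le_mul_right h3 (by positivity)

end Pool.RD
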