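import Pool.Agent.Work.MP_dc37f8_rd.Interface

/-!
# NLP: a set of small doubling has boundedly many popular linear parts
-/

set_option autoImplicit false

open Finset

namespace Pool.RD

open Pool.BK Pool.BD Pool.RF

open scoped Pointwise

namespace NLP

/-- the linear part of a direct isometry -/
lemma lin {g : Gp} (hg : IsDir g) : ‖g 1 - g 0‖ = 1 ∧ ∀ z, g z = (g 1 - g 0) * z + g 0 := by
  obtain ⟨w, t, hw, h⟩ := hg
  have h0 : g 0 = t := by rw [h 0]; ring
  have h1 : g 1 = w + t := by rw [h 1]; ring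
  have h2 : g 1 - g 0 = w := by rw [h0, h1]; ring
  rw [h2, h0]
  exact ⟨hw, h⟩

/-- the motion with the linear part of `g` and the value `v` at `0` -/
noncomputable def hh (g : Gp) (v : ℂ) : Gp := g.trans (Equiv.addRight (v - g 0))

lemma hh_apply (g : Gp) (v z : ℂ) : hh g v z = g z + (v - g 0) := rfl

lemma hh_zero (g : Gp) (v : ℂ) : hh g v 0 = v := by
  rw [hh_apply]
  ring

lemma hh_dir {g : Gp} (hg : IsDir g) (v : ℂ) : IsDir (hh g v) := by
  obtain ⟨h1, h2⟩ := lin hg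
  refine ⟨g 1 - g 0, v, h1, fun z => ?_⟩
  rw [hh_apply, h2 z]
  ring

lemma hh_lin (g : Gp) (v : ℂ) : hh g v 1 - hh g v 0 = g 1 - g 0 := by
  rw [hh_apply, hh_apply]
  ring

open Classical in
/-- the possible values at `0` -/
noncomputable def V (Q : Finset ℂ) (g : Gp) : Finset ℂ :=
  (Q ×ˢ Q).image (fun z => z.1 - (g 1 - g 0) * z.2)

/-- the number of possible values -/
lemma card_V {Q : Finset ℂ} {g : Gp} (hg : IsDir g) :
    (V Q g).card * (st Q g).card ≤ (Q - Q).card * (Q - Q).card := by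
  classical
  obtain ⟨h1, h2⟩ := lin hg
  set w : ℂ := g 1 - g 0 with hw
  have hw0 : w ≠ 0 := by
    intro h
    rw [h, norm_zero] at h1
    exact zero_ne_one h1
  have hinj : Function.Injective (fun z : ℂ => w * z) := fun a b h => mul_left_cancel₀ hw0 h
  have e1 : V Q g = Q - Q.image (fun z => w * z) := by
    ext z
    unfold V
    rw [Finset.mem_image, Finset.mem_sub]
    constructor
    · rintro ⟨⟨a, b⟩, hab, rfl⟩
      rw [Finset.mem_product] at hab
      exact ⟨a, hab.1, w * b, Finset.mem_image_of_mem _ hab.2, rfl⟩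
    · rintro ⟨a, ha, b, hb, rfl⟩
      obtain ⟨c, hc, rfl⟩ := Finset.mem_image.1 hb
      exact ⟨(a, c), Finset.mem_product.2 ⟨ha, hc⟩, rfl⟩
  have e2 : (st Q g).card = ((st Q g).image (fun z => w * z)).card :=
    (Finset.card_image_of_injective _ hinj).symm
  have h3 := Finset.ruzsa_triangle_inequality_sub_sub_sub Q ((st Q g).image (fun z => w * z))
    (Q.image (fun z => w * z))
  rw [← e1, ← e2] at h3
  refine h3.trans (Nat.mul_le_mul ?_ ?_)
  · have h4 : Q - (st Q g).image (fun z => w * z) ⊆ (Q - Q).image (fun z => z + g 0) := by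
      intro z hz
      obtain ⟨a, ha, b, hb, rfl⟩ := Finset.mem_sub.1 hz
      obtain ⟨c, hc, rfl⟩ := Finset.mem_image.1 hb
      unfold st at hc
      rw [Finset.mem_filter] at hc
      refine Finset.mem_image.2 ⟨a - g c, Finset.sub_mem_sub ha hc.2, ?_⟩
      rw [h2 c]
      ring
    exact (Finset.card_le_card h4).trans Finset.card_image_le
  · have h4 : Q.image (fun z => w * z) - (st Q g).image (fun z => w * z) ⊆
        (Q - Q).image (fun z => w * z) := by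
      intro z hz
      obtain ⟨a, ha, b, hb, rfl⟩ := Finset.mem_sub.1 hz
      obtain ⟨c, hc, rfl⟩ := Finset.mem_image.1 hb
      obtain ⟨d, hd, rfl⟩ := Finset.mem_image.1 ha
      unfold st at hc
      rw [Finset.mem_filter] at hc
      exact Finset.mem_image.2 ⟨d - c, Finset.sub_mem_sub hd hc.1, by ring⟩
    exact (Finset.card_le_card h4).trans Finset.card_image_le

/-- the pairs of points are counted by the motions -/
lemma sum_V {Q : Finset ℂ} {g : Gp} (hg : IsDir g) :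
    ∑ v ∈ V Q g, ((st Q (hh g v)).card : ℝ) = (Q.card : ℝ) ^ 2 := by
  classical
  obtain ⟨h1, h2⟩ := lin hg
  set w : ℂ := g 1 - g 0 with hw
  have h3 := Finset.card_eq_sum_card_image (fun z : ℂ × ℂ => z.1 - w * z.2) (Q ×ˢ Q)
  rw [Finset.card_product] at h3
  have h4 : ∀ v ∈ V Q g, (((Q ×ˢ Q).filter (fun z => z.1 - w * z.2 = v)).card : ℕ) =
      (st Q (hh g v)).card := by
    intro v _
    refine Finset.card_bij (fun z _ => z.2) ?_ ?_ ?_
    · rintro ⟨a, b⟩ hz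
      rw [Finset.mem_filter, Finset.mem_product] at hz
      obtain ⟨⟨ha, hb⟩, hv⟩ := hz
      simp only at ha hb hv
      unfold st
      rw [Finset.mem_filter]
      refine ⟨hb, ?_⟩
      rw [hh_apply, h2 b, ← hv]
      have e : w * b + g 0 + (a - w * b - g 0) = a := by ring
      rw [e]
      exact ha
    · rintro ⟨a, b⟩ hz ⟨a', b'⟩ hz' hb
      rw [Finset.mem_filter] at hz hz'
      simp only at hb
      subst hb
      have e1 := hz.2
      have e2 := hz'.2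
      simp only at e1 e2
      have : a = a' := by
        have e3 : a - w * b = a' - w * b := by rw [e1, e2]
        exact sub_left_injective e3
      rw [this]
    · intro b hb
      unfold st at hb
      rw [Finset.mem_filter, hh_apply, h2 b] at hb
      refine ⟨(w * b + g 0 + (v - g 0), b), ?_, rfl⟩
      rw [Finset.mem_filter, Finset.mem_product]
      exact ⟨⟨hb.2, hb.1⟩, by ring⟩
  have h5 : ∑ v ∈ V Q g, (st Q (hh g v)).card = Q.card * Q.card := by
    rw [h3]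
    refine (Finset.sum_congr rfl (fun v hv => (h4 v hv).symm)).trans ?_
    rfl
  rw [sq]
  exact_mod_cast h5

/-- the cubes -/
lemma cubes {Q : Finset ℂ} {g : Gp} {K δ : ℝ} (hg : IsDir g) (hK : 0 < K) (hδ : 0 < δ)
    (hq : 0 < Q.card) (hQ : ((Q - Q).card : ℝ) ≤ K * Q.card)
    (hs : δ * Q.card ≤ ((st Q g).card : ℝ)) (hbig : 2 * K ^ 6 / δ ^ 3 ≤ (Q.card : ℝ)) :
    δ ^ 2 / (2 * K ^ 4) * (Q.card : ℝ) ^ 4 ≤
      ∑ v ∈ (V Q g).filter (fun v => 2 ≤ (st Q (hh g v)).card),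
        ((st Q (hh g v)).card : ℝ) ^ 3 := by
  set q : ℝ := (Q.card : ℝ) with hqdef
  have hq0 : 0 < q := by rw [hqdef]; exact_mod_cast hq
  have hq1 : 1 ≤ q := by rw [hqdef]; exact_mod_cast hq
  have h1 : ((V Q g).card : ℝ) * ((st Q g).card : ℝ) ≤
      ((Q - Q).card : ℝ) * ((Q - Q).card : ℝ) := by exact_mod_cast card_V hg
  have h2 : ((V Q g).card : ℝ) * (δ * q) ≤ (K * q) * (K * q) :=
    (mul_le_mul_of_nonneg_left hs (by positivity)).trans
      (h1.trans (mul_le_mul hQ hQ (by positivity) (by positivity)))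
  have hV : ((V Q g).card : ℝ) ≤ K ^ 2 * q / δ := by
    rw [le_div_iff₀ hδ]
    have h3 : ((V Q g).card : ℝ) * δ * q ≤ K ^ 2 * q * q := by nlinarith
    exact le_of_mul_le_mul_right h3 hq0
  have hVpos : 0 < ((V Q g).card : ℝ) := by
    obtain ⟨a, ha⟩ := Finset.card_pos.1 hq
    have hne : (V Q g).Nonempty :=
      ⟨a - (g 1 - g 0) * a, Finset.mem_image.2 ⟨(a, a), Finset.mem_product.2 ⟨ha, ha⟩, rfl⟩⟩
    exact_mod_cast Finset.card_pos.2 hne
  have h3 := pow_sum_div_card_le_sum_pow (s := V Q g)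
    (f := fun v => ((st Q (hh g v)).card : ℝ)) (fun _ _ => by positivity) 2
  rw [sum_V hg] at h3
  have h4 : δ ^ 2 / K ^ 4 * q ^ 4 ≤ ∑ v ∈ V Q g, ((st Q (hh g v)).card : ℝ) ^ 3 := by
    refine le_trans ?_ h3
    rw [le_div_iff₀ (by positivity)]
    have h5 : ((V Q g).card : ℝ) ^ 2 ≤ (K ^ 2 * q / δ) ^ 2 := pow_le_pow_left₀ hVpos.le hV 2
    calc δ ^ 2 / K ^ 4 * q ^ 4 * ((V Q g).card : ℝ) ^ 2
        ≤ δ ^ 2 / K ^ 4 * q ^ 4 * (K ^ 2 * q / δ) ^ 2 :=
          mul_le_mul_of_nonneg_left h5 (by positivity)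
      _ = (q ^ 2) ^ (2 + 1) := by
          field_simp
          ring
  have h5 : ∀ v ∈ V Q g, ((st Q (hh g v)).card : ℝ) ^ 3 ≤
      (if 2 ≤ (st Q (hh g v)).card then ((st Q (hh g v)).card : ℝ) ^ 3 else 0) + 1 := by
    intro v _
    split_ifs with h
    · linarith
    · have h6 : (st Q (hh g v)).card ≤ 1 := by omega
      have h7 : ((st Q (hh g v)).card : ℝ) ≤ 1 := by exact_mod_cast h6
      have h8 : ((st Q (hh g v)).card : ℝ) ^ 3 ≤ 1 ^ 3 := pow_le_pow_left₀ (by positivity) h7 3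
      linarith
  have h6 := Finset.sum_le_sum h5
  rw [Finset.sum_add_distrib, ← Finset.sum_filter, Finset.sum_const, nsmul_eq_mul, mul_one] at h6
  have h7 : K ^ 2 * q / δ ≤ δ ^ 2 / (2 * K ^ 4) * q ^ 4 := by
    rw [div_le_iff₀ hδ]
    have h8 : 2 * K ^ 6 ≤ q * δ ^ 3 := by
      rw [div_le_iff₀ (by positivity)] at hbig
      exact hbig
    have h9 : δ ^ 2 / (2 * K ^ 4) * q ^ 4 * δ = (q * δ ^ 3) * q ^ 3 / (2 * K ^ 4) := by
      field_simp
    rw [h9, le_div_iff₀ (by positivity)]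
    have h10 : 1 ≤ q ^ 2 := one_le_pow₀ hq1
    calc K ^ 2 * q * (2 * K ^ 4) = (2 * K ^ 6) * q := by ring
      _ ≤ (2 * K ^ 6) * q ^ 3 := by
          refine mul_le_mul_of_nonneg_left ?_ (by positivity)
          nlinarith
      _ ≤ (q * δ ^ 3) * q ^ 3 := mul_le_mul_of_nonneg_right h8 (by positivity)
  have h8 : δ ^ 2 / K ^ 4 * q ^ 4 = 2 * (δ ^ 2 / (2 * K ^ 4) * q ^ 4) := by
    field_simp
  linarith

end NLP

open NLP in
theorem stmt_NLP (hT : RF.Stmt_TAIL) (hR : RF.Stmt_RB) : Stmt_NLP := by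
  classical
  intro K δ hK hδ
  obtain ⟨δ', n1, hδ', hT1⟩ := hT 1 one_pos
  obtain ⟨C, n2, hC, hR1⟩ := hR δ' hδ'
  obtain ⟨n3, hn3⟩ := exists_nat_ge (2 * K ^ 6 / δ ^ 3)
  set c : ℝ := δ ^ 2 / (2 * K ^ 4) with hc
  have hc0 : 0 < c := by positivity
  refine ⟨⌈(1 + C) / c⌉₊, max (max n1 n2) (max n3 1), ?_⟩
  intro Q 𝒢 hn hQ h𝒢 hinj
  have hn1 : n1 ≤ Q.card := le_trans (le_trans (le_max_left _ _) (le_max_left _ _)) hn
  have hn2 : n2 ≤ Q.card := le_trans (le_trans (le_max_right _ _) (le_max_left _ _)) hn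
  have hn3' : n3 ≤ Q.card := le_trans (le_trans (le_max_left _ _) (le_max_right _ _)) hn
  have hn4 : 1 ≤ Q.card := le_trans (le_trans (le_max_right _ _) (le_max_right _ _)) hn
  have hbig : 2 * K ^ 6 / δ ^ 3 ≤ (Q.card : ℝ) := hn3.trans (by exact_mod_cast hn3')
  have hq0 : (0 : ℝ) < (Q.card : ℝ) := by exact_mod_cast hn4
  -- all the motions
  set T : Finset (Σ _ : Gp, ℂ) :=
    𝒢.sigma (fun g => (V Q g).filter (fun v => 2 ≤ (st Q (hh g v)).card)) with hTdef
  have hTinj : Set.InjOn (fun x : (Σ _ : Gp, ℂ) => hh x.1 x.2) (T : Set (Σ _ : Gp, ℂ)) := by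
    rintro ⟨g, v⟩ hx ⟨g', v'⟩ hy h
    rw [Finset.mem_coe, hTdef, Finset.mem_sigma] at hx hy
    simp only at h hx hy
    have h1 : g 1 - g 0 = g' 1 - g' 0 := by
      rw [← hh_lin g v, ← hh_lin g' v', h]
    have h2 := hinj g hx.1 g' hy.1 h1
    have h3 : v = v' := by
      rw [← hh_zero g v, ← hh_zero g' v', h]
    rw [h2, h3]
  set H : Finset Gp := T.image (fun x => hh x.1 x.2) with hH
  have hHmem : ∀ h ∈ H, IsDir h ∧ 2 ≤ (st Q h).card := by
    intro h hh'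
    rw [hH, Finset.mem_image] at hh'
    obtain ⟨⟨g, v⟩, hx, rfl⟩ := hh'
    rw [hTdef, Finset.mem_sigma, Finset.mem_filter] at hx
    exact ⟨hh_dir (h𝒢 g hx.1).1 v, hx.2.2⟩
  have hlow : (𝒢.card : ℝ) * (c * (Q.card : ℝ) ^ 4) ≤ ∑ h ∈ H, ((st Q h).card : ℝ) ^ 3 := by
    rw [hH, Finset.sum_image hTinj, hTdef, Finset.sum_sigma]
    have h1 : ∑ _g ∈ 𝒢, (c * (Q.card : ℝ) ^ 4) ≤
        ∑ g ∈ 𝒢, ∑ v ∈ (V Q g).filter (fun v => 2 ≤ (st Q (hh g v)).card),
          ((st Q (hh g v)).card : ℝ) ^ 3 :=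
      Finset.sum_le_sum (fun g hg => cubes (h𝒢 g hg).1 hK hδ hn4 hQ (h𝒢 g hg).2 hbig)
    rw [Finset.sum_const, nsmul_eq_mul] at h1
    exact h1
  have htail := hT1 Q (H.filter (fun g => ((st Q g).card : ℝ) ≤ δ' * Q.card)) hn1
    (fun g hg => ⟨(hHmem g (Finset.mem_filter.1 hg).1).1, (hHmem g (Finset.mem_filter.1 hg).1).2,
      (Finset.mem_filter.1 hg).2⟩)
  have hrb := hR1 Q (H.filter (fun g => δ' * Q.card ≤ ((st Q g).card : ℝ))) hn2
    (fun g hg => ⟨(hHmem g (Finset.mem_filter.1 hg).1).1, (Finset.mem_filter.1 hg).2⟩)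
  have hup : ∑ h ∈ H, ((st Q h).card : ℝ) ^ 3 ≤ (1 + C) * (Q.card : ℝ) ^ 4 := by
    have h1 : ∀ h ∈ H, ((st Q h).card : ℝ) ^ 3 ≤
        (if ((st Q h).card : ℝ) ≤ δ' * Q.card then ((st Q h).card : ℝ) ^ 3 else 0) +
        (if δ' * Q.card ≤ ((st Q h).card : ℝ) then (Q.card : ℝ) ^ 3 else 0) := by
      intro h _
      have h2 : ((st Q h).card : ℝ) ≤ (Q.card : ℝ) := by
        unfold st
        exact_mod_cast Finset.card_filter_le _ _
      have h3 : ((st Q h).card : ℝ) ^ 3 ≤ (Q.card : ℝ) ^ 3 := pow_le_pow_left₀ (by positivity) h2 3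
      have h4 : 0 ≤ (if δ' * Q.card ≤ ((st Q h).card : ℝ) then (Q.card : ℝ) ^ 3 else 0) := by
        split_ifs <;> positivity
      by_cases h5 : ((st Q h).card : ℝ) ≤ δ' * Q.card
      · rw [if_pos h5]
        linarith
      · rw [if_neg h5, if_pos (not_le.1 h5).le]
        linarith
    have h2 := Finset.sum_le_sum h1
    rw [Finset.sum_add_distrib, ← Finset.sum_filter, ← Finset.sum_filter, Finset.sum_const,
      nsmul_eq_mul] at h2
    have h3 : ((H.filter (fun g => δ' * Q.card ≤ ((st Q g).card : ℝ))).card : ℝ) *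
        (Q.card : ℝ) ^ 3 ≤ (C * Q.card) * (Q.card : ℝ) ^ 3 :=
      mul_le_mul_of_nonneg_right hrb (by positivity)
    calc ∑ h ∈ H, ((st Q h).card : ℝ) ^ 3
        ≤ 1 * (Q.card : ℝ) ^ 4 + (C * Q.card) * (Q.card : ℝ) ^ 3 :=
          h2.trans (add_le_add htail h3)
      _ = (1 + C) * (Q.card : ℝ) ^ 4 := by ring
  have hfin : (𝒢.card : ℝ) * c ≤ 1 + C := by
    have h1 : (𝒢.card : ℝ) * c * (Q.card : ℝ) ^ 4 ≤ (1 + C) * (Q.card : ℝ) ^ 4 := by
      calc (𝒢.card : ℝ) * c * (Q.card : ℝ) ^ 4 = (𝒢.card : ℝ) * (c * (Q.card : ℝ) ^ 4) := by ring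
        _ ≤ _ := hlow.trans hup
    exact le_of_mul_le_mul_right h1 (by positivity)
  have h2 : (𝒢.card : ℝ) ≤ (1 + C) / c := by
    rw [le_div_iff₀ hc0]
    exact hfin
  exact_mod_cast h2.trans (Nat.le_ceil _)

end Pool.RD
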