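import Pool.Agent.Work.MP_dc37f8_rd.Interface
import Pool.Agent.Work.MP_dc37f8_rf.JUNK

/-!
# STEPD: all but few points are on poor lines and form a set of small doubling
-/

set_option autoImplicit false

open Finset

namespace Pool.RD

open Pool.BK Pool.BD Pool.RF

open scoped Pointwise

/-- the difference set of a covered set -/
theorem STEPD.cover {Q F P' : Finset ℂ} {K : ℝ} (hQ : Q.Nonempty)
    (hK : ((Q - Q).card : ℝ) ≤ K * Q.card) (hcov : ∀ p ∈ P', ∃ x ∈ F, p - x ∈ Q + Q - Q) :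
    ((P' - P').card : ℝ) ≤ (F.card : ℝ) ^ 2 * (K ^ 6 * Q.card) := by
  classical
  have hq : (0 : ℝ) < Q.card := by exact_mod_cast card_pos.2 hQ
  have h1 : P' - P' ⊆ (F - F) + (3 • Q - 3 • Q) := by
    intro z hz
    obtain ⟨p, hp, p', hp', rfl⟩ := mem_sub.1 hz
    obtain ⟨x, hx, hb⟩ := hcov p hp
    obtain ⟨x', hx', hb'⟩ := hcov p' hp'
    obtain ⟨s, hs, q3, h3, e1⟩ := mem_sub.1 hb
    obtain ⟨q1, h1, q2, h2, e2⟩ := mem_add.1 hs
    obtain ⟨s', hs', q3', h3', e1'⟩ := mem_sub.1 hb'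
    obtain ⟨q1', h1', q2', h2', e2'⟩ := mem_add.1 hs'
    refine mem_add.2 ⟨x - x', sub_mem_sub hx hx', (q1 + q2 + q3') - (q1' + q2' + q3), ?_, ?_⟩
    · rw [three'_nsmul]
      exact sub_mem_sub (add_mem_add (add_mem_add h1 h2) h3') (add_mem_add (add_mem_add h1' h2') h3)
    · have e3 : p = x + (q1 + q2 - q3) := by
        rw [e2, e1]
        ring
      have e4 : p' = x' + (q1' + q2' - q3') := by
        rw [e2', e1']
        ring
      rw [e3, e4]
      ring
  have h2 : ((3 • Q - 3 • Q).card : ℝ) ≤ K ^ 6 * Q.card := by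
    have h3 := pluennecke_ruzsa_inequality_nsmul_sub_nsmul_sub hQ Q 3 3
    have h4 : ((3 • Q - 3 • Q).card : ℝ) ≤ (((Q - Q).card : ℝ) / Q.card) ^ (3 + 3) * Q.card := by
      have h5 := (NNRat.cast_le (K := ℝ)).2 h3
      push_cast at h5
      exact h5
    refine h4.trans ?_
    have h5 : ((Q - Q).card : ℝ) / Q.card ≤ K := by rwa [div_le_iff₀ hq]
    have h6 : 0 ≤ ((Q - Q).card : ℝ) / Q.card := by positivity
    exact mul_le_mul_of_nonneg_right (pow_le_pow_left₀ h6 h5 6) hq.le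
  calc ((P' - P').card : ℝ) ≤ (((F - F) + (3 • Q - 3 • Q)).card : ℝ) := by
        exact_mod_cast card_le_card h1
    _ ≤ ((F - F).card : ℝ) * ((3 • Q - 3 • Q).card : ℝ) := by
        exact_mod_cast card_add_le
    _ ≤ ((F.card : ℝ) ^ 2) * (K ^ 6 * Q.card) := by
        have h7 : ((F - F).card : ℝ) ≤ (F.card : ℝ) ^ 2 := by
          rw [sq]
          exact_mod_cast card_sub_le
        exact mul_le_mul h7 h2 (by positivity) (by positivity)

/-- few points are on rich lines -/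
theorem STEPD.few (hL : Stmt_COL) (hR : RF.Stmt_RL) {K β c' : ℝ} (hK : 0 < K) (hβ : 0 < β)
    (hc' : 0 < c') {P Q : Finset ℂ} (hn : 0 < P.card) (hn4 : 4 / β ^ 2 ≤ (P.card : ℝ))
    (hQ : Q.Nonempty) (hQP : Q ⊆ P \ Lam P (c' * β / (4 * (K ^ 4 + 1))))
    (hQQ : ((Q - Q).card : ℝ) ≤ K * Q.card) (x : ℂ) (S₀ : Finset ℂ) (hS₀ : S₀ ⊆ Lam P β)
    (hS₀x : ∀ p ∈ S₀, p - x ∈ Q + Q - Q) (hc : c' * P.card ≤ (S₀.card : ℝ)) : False := by
  classical
  have hn' : (0 : ℝ) < P.card := by exact_mod_cast hn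
  obtain ⟨N, hN1, -, hN3, hN4⟩ := JUNK.reps hR hβ P hn hn4
  have hcov : S₀ ⊆ N.biUnion fun l => S₀.filter fun y => On l y := by
    intro p hp
    have hpL := hS₀ hp
    unfold Lam at hpL
    obtain ⟨hpP, v, hv, hvc⟩ := mem_filter.1 hpL
    obtain ⟨l, hl, hlp, -⟩ := hN3 p v hv hvc
    have h1 : p ∈ pts P l := by
      rw [hlp]
      unfold pts
      exact mem_filter.2 ⟨hpP, 0, by simp⟩
    unfold pts at h1
    exact mem_biUnion.2 ⟨l, hl, mem_filter.2 ⟨hp, (mem_filter.1 h1).2⟩⟩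
  have hsum : (S₀.card : ℝ) ≤ ∑ l ∈ N, ((S₀.filter fun y => On l y).card : ℝ) := by
    exact_mod_cast (card_le_card hcov).trans card_biUnion_le
  have hex : ∃ l ∈ N, c' * β / 2 * P.card ≤ ((S₀.filter fun y => On l y).card : ℝ) := by
    by_contra hcon
    push Not at hcon
    have hNne : N.Nonempty := by
      by_contra hNe
      rw [not_nonempty_iff_eq_empty] at hNe
      rw [hNe, sum_empty] at hsum
      have : 0 < c' * P.card := by positivity
      linarith
    have h1 : ∑ l ∈ N, ((S₀.filter fun y => On l y).card : ℝ) < ∑ _l ∈ N, c' * β / 2 * P.card :=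
      sum_lt_sum_of_nonempty hNne hcon
    rw [sum_const, nsmul_eq_mul] at h1
    have h2 : (N.card : ℝ) * (c' * β / 2 * P.card) ≤ 2 / β * (c' * β / 2 * P.card) :=
      mul_le_mul_of_nonneg_right hN4 (by positivity)
    have h3 : 2 / β * (c' * β / 2 * P.card) = c' * P.card := by
      field_simp
    linarith
  obtain ⟨l, hl, hlc⟩ := hex
  have hβ₂ : 0 < c' * β / (4 * (K ^ 4 + 1)) := by positivity
  have h1 := hL K (c' * β / (4 * (K ^ 4 + 1))) P Q (S₀.filter fun y => On l y) x l hβ₂ (hN1 l hl) hQ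
    (hQP.trans sdiff_subset) (by
      refine le_trans (le_of_eq ?_) hQQ
      congr 2)
    (fun q hq => by
      have h2 := mem_sdiff.1 (hQP hq)
      have h3 : ¬ (∃ v : ℂ, v ≠ 0 ∧ c' * β / (4 * (K ^ 4 + 1)) * P.card ≤
          ((pts P (q, v)).card : ℝ)) := by
        intro h4
        apply h2.2
        unfold Lam
        exact mem_filter.2 ⟨h2.1, h4⟩
      push Not at h3
      exact (h3 l.2 (hN1 l hl)).le)
    (fun p hp => ⟨(mem_filter.1 hp).2, by
      have h2 := hS₀x p (mem_filter.1 hp).1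
      have e : (Q + Q - Q : Finset ℂ) = Q + Q - Q := rfl
      refine (congrArg (fun s : Finset ℂ => p - x ∈ s) ?_).mp h2
      congr 2⟩)
  have h2 : K ^ 4 * (c' * β / (4 * (K ^ 4 + 1))) * P.card < c' * β / 2 * P.card := by
    refine mul_lt_mul_of_pos_right ?_ hn'
    rw [← mul_div_assoc, div_lt_div_iff₀ (by positivity) (by norm_num)]
    have h3 : 0 < c' * β := by positivity
    have h4 : 0 < K ^ 4 := by positivity
    nlinarith
  linarith

theorem stmt_STEPD (hM : Stmt_MOV) (hC : Stmt_COV) (hG : Stmt_GRE) (hL : Stmt_COL)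
    (hR : RF.Stmt_RL) : Stmt_STEPD := by
  classical
  intro K θ hK hθ
  set θ' := min θ (1 / 2) with hθ'
  have hθ'0 : 0 < θ' := lt_min hθ (by norm_num)
  have hθ'1 : θ' ≤ θ := min_le_left _ _
  have hθ'2 : θ' ≤ 1 / 2 := min_le_right _ _
  obtain ⟨δ, c, n1, hδ, hc, hM'⟩ := hM K (θ' / 2) hK (by linarith)
  obtain ⟨c', n2, hc', hC'⟩ := hC K δ c hK hδ hc
  refine ⟨2 * (K ^ 6 + 1) / c' ^ 2, by positivity, fun β hβ => ?_⟩
  refine ⟨c' * β / (4 * (K ^ 4 + 1)), max (max n1 n2) (⌈4 / β ^ 2⌉₊ + 1), by positivity, ?_⟩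
  intro P Q hn hTC hQP hPQ hQQ
  have hn1 : n1 ≤ P.card := (le_max_left _ _).trans ((le_max_left _ _).trans hn)
  have hn2 : n2 ≤ P.card := (le_max_right _ _).trans ((le_max_left _ _).trans hn)
  have hn3 : ⌈4 / β ^ 2⌉₊ + 1 ≤ P.card := (le_max_right _ _).trans hn
  have hP0 : 0 < P.card := by omega
  have hP' : (0 : ℝ) < P.card := by exact_mod_cast hP0
  have hn4 : 4 / β ^ 2 ≤ (P.card : ℝ) := by
    refine (Nat.le_ceil _).trans ?_
    exact_mod_cast (Nat.le_succ _).trans hn3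
  have hQP' : Q ⊆ P := hQP.trans sdiff_subset
  have hQne : Q.Nonempty := by
    by_contra hne
    rw [not_nonempty_iff_eq_empty] at hne
    rw [hne] at hPQ
    simp only [card_empty, Nat.cast_zero, mul_zero] at hPQ
    linarith
  -- every large subset has a large part in a translate
  have key : ∀ R ⊆ P, θ' / 2 * P.card ≤ (R.card : ℝ) →
      ∃ x : ℂ, c' * P.card ≤ ((R.filter (fun p => p - x ∈ Q + Q - Q)).card : ℝ) := by
    intro R hRP hRc
    obtain ⟨𝒢, h𝒢1, h𝒢2⟩ := hM' P Q R hn1 hTC hQP' hRP hPQ hRc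
    obtain ⟨x, hx⟩ := hC' P Q R 𝒢 hn2 hQP' hRP hPQ hQQ h𝒢1 h𝒢2
    exact ⟨x, hx⟩
  obtain ⟨F, hF, P1, hP1P, hP1c, hP1n⟩ := hG P (Q + Q - Q) (θ' / 2) c' (by linarith) hc' key
  -- few points on rich lines
  have hfew : ((Lam P β).card : ℝ) < θ' / 2 * P.card := by
    by_contra hcon
    push Not at hcon
    have hLP : Lam P β ⊆ P := by
      unfold Lam
      exact filter_subset _ _
    obtain ⟨x, hx⟩ := key (Lam P β) hLP hcon
    exact STEPD.few hL hR hK hβ hc' hP0 hn4 hQne hQP hQQ x _ (filter_subset _ _)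
      (fun p hp => (mem_filter.1 hp).2) hx
  refine ⟨P1 \ Lam P β, ?_, ?_, ?_⟩
  · intro p hp
    rw [mem_sdiff] at hp ⊢
    exact ⟨hP1P hp.1, hp.2⟩
  · have h1 : (P1.card : ℝ) ≤ (P1 \ Lam P β).card + (Lam P β).card := by
      have : P1.card ≤ (P1 \ Lam P β).card + (Lam P β).card := by
        have h2 := card_le_card (show P1 ⊆ (P1 \ Lam P β) ∪ Lam P β from fun p hp => by
          by_cases h : p ∈ Lam P β
          · exact mem_union_right _ h
          · exact mem_union_left _ (mem_sdiff.2 ⟨hp, h⟩))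
        exact h2.trans (card_union_le _ _)
      exact_mod_cast this
    nlinarith
  · have h1 : (P1.card : ℝ) ≤ (P1 \ Lam P β).card + (Lam P β).card := by
      have : P1.card ≤ (P1 \ Lam P β).card + (Lam P β).card := by
        have h2 := card_le_card (show P1 ⊆ (P1 \ Lam P β) ∪ Lam P β from fun p hp => by
          by_cases h : p ∈ Lam P β
          · exact mem_union_right _ h
          · exact mem_union_left _ (mem_sdiff.2 ⟨hp, h⟩))
        exact h2.trans (card_union_le _ _)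
      exact_mod_cast this
    have h2 : (P.card : ℝ) / 2 ≤ ((P1 \ Lam P β).card : ℝ) := by nlinarith
    have h3 := STEPD.cover (Q := Q) (F := F) (P' := P1 \ Lam P β) hQne hQQ
      (fun p hp => hP1c p (mem_sdiff.1 hp).1)
    have h4 : (F.card : ℝ) ≤ 1 / c' := by
      rw [le_div_iff₀ hc']
      linarith
    have h5 : (Q.card : ℝ) ≤ P.card := by exact_mod_cast card_le_card hQP'
    calc (((P1 \ Lam P β) - (P1 \ Lam P β)).card : ℝ) ≤ (F.card : ℝ) ^ 2 * (K ^ 6 * Q.card) := by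
          refine le_trans (le_of_eq ?_) h3
          congr 2
      _ ≤ (1 / c') ^ 2 * (K ^ 6 * P.card) := by gcongr
      _ ≤ 2 * (K ^ 6 + 1) / c' ^ 2 * (P.card / 2) := by
          have e : 2 * (K ^ 6 + 1) / c' ^ 2 * (P.card / 2 : ℝ) =
            (1 / c') ^ 2 * (K ^ 6 * P.card) + (1 / c') ^ 2 * P.card := by
            field_simp
          rw [e]
          have : 0 ≤ (1 / c') ^ 2 * (P.card : ℝ) := by positivity
          linarith
      _ ≤ 2 * (K ^ 6 + 1) / c' ^ 2 * ((P1 \ Lam P β).card : ℝ) := by gcongr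

end Pool.RD
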