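import Pool.Agent.Work.MP_dc37f8_rd.Interface

/-!
# SXR: removing few points does not change `SX` much
-/

set_option autoImplicit false

open Finset

namespace Pool.RD

open Pool.BK Pool.BD Pool.RF

open scoped Pointwise

namespace SXR

open Classical in
/-- the pairs of triples of `P` which differ by a direct isometry with linear part `w` -/
noncomputable def F (P : Finset ℂ) (w : ℂ) : Finset ((ℂ × ℂ × ℂ) × (ℂ × ℂ × ℂ)) :=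
  ((P ×ˢ P ×ˢ P) ×ˢ (P ×ˢ P ×ˢ P)).filter (fun z =>
    z.2.1 - z.2.2.1 = w * (z.1.1 - z.1.2.1) ∧ z.2.1 - z.2.2.2 = w * (z.1.1 - z.1.2.2))

theorem mem_F (P : Finset ℂ) (w a b c a' b' c' : ℂ) :
    ((a, b, c), (a', b', c')) ∈ F P w ↔ (((a ∈ P ∧ b ∈ P ∧ c ∈ P) ∧ a' ∈ P ∧ b' ∈ P ∧ c' ∈ P) ∧
      a' - b' = w * (a - b) ∧ a' - c' = w * (a - c)) := by
  unfold F
  simp only [mem_filter, mem_product]

open Classical in
theorem bound (P P' : Finset ℂ) (S : Finset ((ℂ × ℂ × ℂ) × (ℂ × ℂ × ℂ)))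
    (f : ((ℂ × ℂ × ℂ) × (ℂ × ℂ × ℂ)) → ℂ × ℂ × ℂ × ℂ)
    (h1 : ∀ z ∈ S, f z ∈ (P \ P') ×ˢ (P ×ˢ (P ×ˢ P)))
    (h2 : ∀ z ∈ S, ∀ y ∈ S, f z = f y → z = y) :
    S.card ≤ (P \ P').card * P.card ^ 3 := by
  calc S.card ≤ ((P \ P') ×ˢ (P ×ˢ (P ×ˢ P))).card :=
        card_le_card_of_injOn f (fun z hz => mem_coe.2 (h1 z (mem_coe.1 hz)))
          (fun z hz y hy h => h2 z (mem_coe.1 hz) y (mem_coe.1 hy) h)
    _ = (P \ P').card * P.card ^ 3 := by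
        simp only [card_product]
        ring

end SXR

open SXR in
theorem stmt_SXR : Stmt_SXR := by
  classical
  intro P P' w hP' hw
  have hw0 : w ≠ 0 := by
    intro h
    rw [h, norm_zero] at hw
    exact zero_ne_one hw
  have e1 : SX P w = (F P w).card := rfl
  have e2 : SX P' w = (F P' w).card := rfl
  obtain ⟨S1, hS1⟩ : ∃ S, S = (F P w).filter (fun z => z.1.1 ∉ P') := ⟨_, rfl⟩
  obtain ⟨S2, hS2⟩ : ∃ S, S = (F P w).filter (fun z => z.1.2.1 ∉ P') := ⟨_, rfl⟩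
  obtain ⟨S3, hS3⟩ : ∃ S, S = (F P w).filter (fun z => z.1.2.2 ∉ P') := ⟨_, rfl⟩
  obtain ⟨S4, hS4⟩ : ∃ S, S = (F P w).filter (fun z => z.2.1 ∉ P') := ⟨_, rfl⟩
  obtain ⟨S5, hS5⟩ : ∃ S, S = (F P w).filter (fun z => z.2.2.1 ∉ P') := ⟨_, rfl⟩
  obtain ⟨S6, hS6⟩ : ∃ S, S = (F P w).filter (fun z => z.2.2.2 ∉ P') := ⟨_, rfl⟩
  have hsub : F P w ⊆ F P' w ∪ (S1 ∪ (S2 ∪ (S3 ∪ (S4 ∪ (S5 ∪ S6))))) := by
    rintro ⟨⟨a, b, c⟩, ⟨a', b', c'⟩⟩ hz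
    have hz2 := (mem_F P w a b c a' b' c').1 hz
    by_cases h1 : a ∈ P'
    · by_cases h2 : b ∈ P'
      · by_cases h3 : c ∈ P'
        · by_cases h4 : a' ∈ P'
          · by_cases h5 : b' ∈ P'
            · by_cases h6 : c' ∈ P'
              · exact mem_union_left _ ((mem_F P' w a b c a' b' c').2
                  ⟨⟨⟨h1, h2, h3⟩, h4, h5, h6⟩, hz2.2⟩)
              · simp only [mem_union, hS6, mem_filter]
                exact Or.inr (Or.inr (Or.inr (Or.inr (Or.inr (Or.inr ⟨hz, h6⟩)))))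
            · simp only [mem_union, hS5, mem_filter]
              exact Or.inr (Or.inr (Or.inr (Or.inr (Or.inr (Or.inl ⟨hz, h5⟩)))))
          · simp only [mem_union, hS4, mem_filter]
            exact Or.inr (Or.inr (Or.inr (Or.inr (Or.inl ⟨hz, h4⟩))))
        · simp only [mem_union, hS3, mem_filter]
          exact Or.inr (Or.inr (Or.inr (Or.inl ⟨hz, h3⟩)))
      · simp only [mem_union, hS2, mem_filter]
        exact Or.inr (Or.inr (Or.inl ⟨hz, h2⟩))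
    · simp only [mem_union, hS1, mem_filter]
      exact Or.inr (Or.inl ⟨hz, h1⟩)
  have b1 : S1.card ≤ (P \ P').card * P.card ^ 3 := by
    apply bound P P' S1 (fun z => (z.1.1, z.1.2.1, z.1.2.2, z.2.1))
    · rintro ⟨⟨a, b, c⟩, ⟨a', b', c'⟩⟩ hz
      rw [hS1, mem_filter, mem_F] at hz
      obtain ⟨⟨⟨⟨ha, hb, hc⟩, ha', hb', hc'⟩, -⟩, hn⟩ := hz
      simp only [mem_product, mem_sdiff]
      exact ⟨⟨ha, hn⟩, hb, hc, ha'⟩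
    · rintro ⟨⟨a, b, c⟩, ⟨a', b', c'⟩⟩ hz ⟨⟨d, e, f⟩, ⟨d', e', f'⟩⟩ hz2 h
      rw [hS1, mem_filter, mem_F] at hz hz2
      obtain ⟨⟨-, p1, p2⟩, -⟩ := hz
      obtain ⟨⟨-, q1, q2⟩, -⟩ := hz2
      simp only [Prod.mk.injEq] at h ⊢
      obtain ⟨h1, h2, h3, h4⟩ := h
      subst h1 h2 h3 h4
      exact ⟨⟨rfl, rfl, rfl⟩, rfl, by linear_combination q1 - p1, by linear_combination q2 - p2⟩
  have b2 : S2.card ≤ (P \ P').card * P.card ^ 3 := by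
    apply bound P P' S2 (fun z => (z.1.2.1, z.1.1, z.1.2.2, z.2.1))
    · rintro ⟨⟨a, b, c⟩, ⟨a', b', c'⟩⟩ hz
      rw [hS2, mem_filter, mem_F] at hz
      obtain ⟨⟨⟨⟨ha, hb, hc⟩, ha', hb', hc'⟩, -⟩, hn⟩ := hz
      simp only [mem_product, mem_sdiff]
      exact ⟨⟨hb, hn⟩, ha, hc, ha'⟩
    · rintro ⟨⟨a, b, c⟩, ⟨a', b', c'⟩⟩ hz ⟨⟨d, e, f⟩, ⟨d', e', f'⟩⟩ hz2 h
      rw [hS2, mem_filter, mem_F] at hz hz2
      obtain ⟨⟨-, p1, p2⟩, -⟩ := hz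
      obtain ⟨⟨-, q1, q2⟩, -⟩ := hz2
      simp only [Prod.mk.injEq] at h ⊢
      obtain ⟨h1, h2, h3, h4⟩ := h
      subst h1 h2 h3 h4
      exact ⟨⟨rfl, rfl, rfl⟩, rfl, by linear_combination q1 - p1, by linear_combination q2 - p2⟩
  have b3 : S3.card ≤ (P \ P').card * P.card ^ 3 := by
    apply bound P P' S3 (fun z => (z.1.2.2, z.1.1, z.1.2.1, z.2.1))
    · rintro ⟨⟨a, b, c⟩, ⟨a', b', c'⟩⟩ hz
      rw [hS3, mem_filter, mem_F] at hz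
      obtain ⟨⟨⟨⟨ha, hb, hc⟩, ha', hb', hc'⟩, -⟩, hn⟩ := hz
      simp only [mem_product, mem_sdiff]
      exact ⟨⟨hc, hn⟩, ha, hb, ha'⟩
    · rintro ⟨⟨a, b, c⟩, ⟨a', b', c'⟩⟩ hz ⟨⟨d, e, f⟩, ⟨d', e', f'⟩⟩ hz2 h
      rw [hS3, mem_filter, mem_F] at hz hz2
      obtain ⟨⟨-, p1, p2⟩, -⟩ := hz
      obtain ⟨⟨-, q1, q2⟩, -⟩ := hz2
      simp only [Prod.mk.injEq] at h ⊢
      obtain ⟨h1, h2, h3, h4⟩ := h
      subst h1 h2 h3 h4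
      exact ⟨⟨rfl, rfl, rfl⟩, rfl, by linear_combination q1 - p1, by linear_combination q2 - p2⟩
  have b4 : S4.card ≤ (P \ P').card * P.card ^ 3 := by
    apply bound P P' S4 (fun z => (z.2.1, z.1.1, z.1.2.1, z.1.2.2))
    · rintro ⟨⟨a, b, c⟩, ⟨a', b', c'⟩⟩ hz
      rw [hS4, mem_filter, mem_F] at hz
      obtain ⟨⟨⟨⟨ha, hb, hc⟩, ha', hb', hc'⟩, -⟩, hn⟩ := hz
      simp only [mem_product, mem_sdiff]
      exact ⟨⟨ha', hn⟩, ha, hb, hc⟩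
    · rintro ⟨⟨a, b, c⟩, ⟨a', b', c'⟩⟩ hz ⟨⟨d, e, f⟩, ⟨d', e', f'⟩⟩ hz2 h
      rw [hS4, mem_filter, mem_F] at hz hz2
      obtain ⟨⟨-, p1, p2⟩, -⟩ := hz
      obtain ⟨⟨-, q1, q2⟩, -⟩ := hz2
      simp only [Prod.mk.injEq] at h ⊢
      obtain ⟨h1, h2, h3, h4⟩ := h
      subst h1 h2 h3 h4
      exact ⟨⟨rfl, rfl, rfl⟩, rfl, by linear_combination q1 - p1, by linear_combination q2 - p2⟩
  have b5 : S5.card ≤ (P \ P').card * P.card ^ 3 := by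
    apply bound P P' S5 (fun z => (z.2.2.1, z.1.1, z.1.2.1, z.1.2.2))
    · rintro ⟨⟨a, b, c⟩, ⟨a', b', c'⟩⟩ hz
      rw [hS5, mem_filter, mem_F] at hz
      obtain ⟨⟨⟨⟨ha, hb, hc⟩, ha', hb', hc'⟩, -⟩, hn⟩ := hz
      simp only [mem_product, mem_sdiff]
      exact ⟨⟨hb', hn⟩, ha, hb, hc⟩
    · rintro ⟨⟨a, b, c⟩, ⟨a', b', c'⟩⟩ hz ⟨⟨d, e, f⟩, ⟨d', e', f'⟩⟩ hz2 h
      rw [hS5, mem_filter, mem_F] at hz hz2
      obtain ⟨⟨-, p1, p2⟩, -⟩ := hz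
      obtain ⟨⟨-, q1, q2⟩, -⟩ := hz2
      simp only [Prod.mk.injEq] at h ⊢
      obtain ⟨h1, h2, h3, h4⟩ := h
      subst h1 h2 h3 h4
      exact ⟨⟨rfl, rfl, rfl⟩, by linear_combination p1 - q1, rfl,
        by linear_combination p1 - q1 + q2 - p2⟩
  have b6 : S6.card ≤ (P \ P').card * P.card ^ 3 := by
    apply bound P P' S6 (fun z => (z.2.2.2, z.1.1, z.1.2.1, z.1.2.2))
    · rintro ⟨⟨a, b, c⟩, ⟨a', b', c'⟩⟩ hz
      rw [hS6, mem_filter, mem_F] at hz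
      obtain ⟨⟨⟨⟨ha, hb, hc⟩, ha', hb', hc'⟩, -⟩, hn⟩ := hz
      simp only [mem_product, mem_sdiff]
      exact ⟨⟨hc', hn⟩, ha, hb, hc⟩
    · rintro ⟨⟨a, b, c⟩, ⟨a', b', c'⟩⟩ hz ⟨⟨d, e, f⟩, ⟨d', e', f'⟩⟩ hz2 h
      rw [hS6, mem_filter, mem_F] at hz hz2
      obtain ⟨⟨-, p1, p2⟩, -⟩ := hz
      obtain ⟨⟨-, q1, q2⟩, -⟩ := hz2
      simp only [Prod.mk.injEq] at h ⊢
      obtain ⟨h1, h2, h3, h4⟩ := h
      subst h1 h2 h3 h4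
      exact ⟨⟨rfl, rfl, rfl⟩, by linear_combination p2 - q2,
        by linear_combination p2 - q2 + q1 - p1, rfl⟩
  have hN : SX P w ≤ SX P' w + 6 * ((P \ P').card * P.card ^ 3) := by
    rw [e1, e2]
    have h := card_le_card hsub
    have u1 := card_union_le (F P' w) (S1 ∪ (S2 ∪ (S3 ∪ (S4 ∪ (S5 ∪ S6)))))
    have u2 := card_union_le S1 (S2 ∪ (S3 ∪ (S4 ∪ (S5 ∪ S6))))
    have u3 := card_union_le S2 (S3 ∪ (S4 ∪ (S5 ∪ S6)))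
    have u4 := card_union_le S3 (S4 ∪ (S5 ∪ S6))
    have u5 := card_union_le S4 (S5 ∪ S6)
    have u6 := card_union_le S5 S6
    omega
  have hR : (SX P w : ℝ) ≤ SX P' w + 6 * (((P \ P').card : ℝ) * (P.card : ℝ) ^ 3) := by
    exact_mod_cast hN
  linarith

end Pool.RD
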