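import Pool.Agent.Work.MP_dc37f8_rf.All
import Pool.Agent.Work.MP_dc37f8_rd.FINALR
import Pool.Agent.Work.MP_dc37f8_rd.FINR
import Pool.Agent.Work.MP_dc37f8_rd.MOV
import Pool.Agent.Work.MP_dc37f8_rd.NLP
import Pool.Agent.Work.MP_dc37f8_rd.COV
import Pool.Agent.Work.MP_dc37f8_rd.GRE
import Pool.Agent.Work.MP_dc37f8_rd.COL
import Pool.Agent.Work.MP_dc37f8_rd.STEPD
import Pool.Agent.Work.MP_dc37f8_rd.SXR
import Pool.Agent.Work.MP_dc37f8_rd.BSQ

/-! The assembled statements of project rd. -/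

set_option autoImplicit false

namespace Pool.RD

theorem full_COV : Stmt_COV := stmt_COV (stmt_NLP RF.full_TAIL RF.full_RB)
theorem full_MOV : Stmt_MOV := stmt_MOV RF.stmt_WCSD RF.full_TAIL RF.full_RB
theorem full_STEPD : Stmt_STEPD := stmt_STEPD full_MOV full_COV stmt_GRE stmt_COL RF.full_RL
theorem full_BSQ : Stmt_BSQ := stmt_BSQ Pool.BD.full_ADD
theorem full_FINR (hLAT : Stmt_LAT) : Stmt_FINR :=
  stmt_FINR RF.full_MAINC full_BSQ full_STEPD stmt_SXR hLAT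

end Pool.RD
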